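import Pool.Agent.R433.MD.Torsor
import Pool.Agent.R433.MD.Fiber

/-!
# Homomorphisms of the integers of a Galois extension to a field of positive characteristic

The Galois group acts transitively on the homomorphisms with a given restriction to the base, at all
primes (ramified ones included).
-/

set_option autoImplicit false

namespace Pool.Agent.R386.HY

open NumberField IsDedekindDomain Pointwise
open Pool.Agent.R433.MD

section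
variable {F L Ω : Type} [Field F] [NumberField F] [Field L] [NumberField L] [Algebra F L] [Field Ω]

theorem conj_ker [IsGalois F L] {Ψ Ψ' : 𝓞 L →+* Ω}
    (h : Ψ.comp (algebraMap (𝓞 F) (𝓞 L)) = Ψ'.comp (algebraMap (𝓞 F) (𝓞 L)))
    (hk : RingHom.ker Ψ = RingHom.ker Ψ') (h0 : RingHom.ker Ψ ≠ ⊥) :
    ∃ σ : Gal(L/F), ∀ x : 𝓞 L, Ψ' x = Ψ (σ • x) := by
  classical
  let Q : Ideal (𝓞 L) := RingHom.ker Ψ
  have hQp : Q.IsPrime := RingHom.ker_isPrime Ψ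
  have hQm : Q.IsMaximal := hQp.isMaximal h0
  let P : Ideal (𝓞 F) := Q.under (𝓞 F)
  have hPQ : Q.LiesOver P := ⟨rfl⟩
  have hPm : P.IsMaximal := Ideal.IsMaximal.under (𝓞 F) Q
  let _ : Field (𝓞 F ⧸ P) := Ideal.Quotient.field P
  let _ : Field (𝓞 L ⧸ Q) := Ideal.Quotient.field Q
  let χ : (𝓞 L ⧸ Q) →+* Ω := Ideal.Quotient.lift Q Ψ fun a ha => ha
  let χ' : (𝓞 L ⧸ Q) →+* Ω := Ideal.Quotient.lift Q Ψ' fun a ha => by
    have h1 : a ∈ RingHom.ker Ψ' := hk ▸ ha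
    exact h1
  let _ : Algebra (𝓞 L ⧸ Q) Ω := χ.toAlgebra
  let _ : Algebra (𝓞 F ⧸ P) Ω := (χ.comp (algebraMap (𝓞 F ⧸ P) (𝓞 L ⧸ Q))).toAlgebra
  have hst : IsScalarTower (𝓞 F ⧸ P) (𝓞 L ⧸ Q) Ω := IsScalarTower.of_algebraMap_eq fun x => rfl
  have hn : Normal (𝓞 F ⧸ P) (𝓞 L ⧸ Q) := Ideal.Quotient.normal (G := Gal(L/F)) P Q
  let χa : (𝓞 L ⧸ Q) →ₐ[𝓞 F ⧸ P] Ω :=
    { χ' with
      commutes' := by
        intro x
        obtain ⟨y, rfl⟩ := Ideal.Quotient.mk_surjective x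
        exact (RingHom.congr_fun h y).symm }
  let τ := Normal.algHomEquivAut (𝓞 F ⧸ P) Ω (𝓞 L ⧸ Q) χa
  have hτ : ∀ z : 𝓞 L ⧸ Q, χ' z = χ (τ z) := by
    intro z
    have h1 := (Normal.algHomEquivAut (𝓞 F ⧸ P) Ω (𝓞 L ⧸ Q)).symm_apply_apply χa
    exact (AlgHom.congr_fun h1 z).symm
  obtain ⟨σ, hσ⟩ := Ideal.Quotient.stabilizerHom_surjective (G := Gal(L/F)) P Q τ
  refine ⟨σ.1, fun x => ?_⟩
  have h1 := hτ (Ideal.Quotient.mk Q x)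
  rw [← hσ] at h1
  exact h1

/-- homomorphisms which agree below are conjugate -/
theorem conj_unif [IsGalois F L] {Ψ Ψ' : 𝓞 L →+* Ω}
    (h : Ψ.comp (algebraMap (𝓞 F) (𝓞 L)) = Ψ'.comp (algebraMap (𝓞 F) (𝓞 L)))
    (h0 : RingHom.ker Ψ ≠ ⊥) : ∃ σ : Gal(L/F), ∀ x : 𝓞 L, Ψ' x = Ψ (σ • x) := by
  classical
  have hP : (RingHom.ker Ψ).IsPrime := RingHom.ker_isPrime Ψ
  have hQ : (RingHom.ker Ψ').IsPrime := RingHom.ker_isPrime Ψ'
  obtain ⟨g, hg⟩ := Algebra.IsInvariant.exists_smul_of_under_eq (𝓞 F) (𝓞 L) Gal(L/F)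
    (RingHom.ker Ψ) (RingHom.ker Ψ') (by
      ext x
      have h1 : Ψ (algebraMap (𝓞 F) (𝓞 L) x) = Ψ' (algebraMap (𝓞 F) (𝓞 L) x) :=
        RingHom.congr_fun h x
      change Ψ (algebraMap (𝓞 F) (𝓞 L) x) = 0 ↔ Ψ' (algebraMap (𝓞 F) (𝓞 L) x) = 0
      rw [h1])
  have h2 : RingHom.ker (tw Ψ g⁻¹) = RingHom.ker Ψ' := by
    rw [hg]
    ext x
    rw [Ideal.mem_pointwise_smul_iff_inv_smul_mem]
    rfl
  obtain ⟨σ, hσ⟩ := conj_ker (Ψ := tw Ψ g⁻¹) (Ψ' := Ψ') ((tw_below Ψ g⁻¹).trans h) h2 (by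
    intro h3
    apply h0
    rw [Submodule.eq_bot_iff] at h3 ⊢
    intro x hx
    have h4 := h3 (g • x) (by
      change Ψ (g⁻¹ • g • x) = 0
      rw [inv_smul_smul]
      exact hx)
    exact (smul_eq_zero_iff_eq g).1 h4)
  refine ⟨g⁻¹ * σ, fun x => ?_⟩
  rw [hσ, tw_apply, mul_smul]

end

end Pool.Agent.R386.HY
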