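import Pool.Agent.R386.HY.Four
import Pool.Agent.R433.MD.GalRel

/-!
# Subfields of the field generated by the `x`-coordinates of the points of order three
-/

set_option autoImplicit false

namespace Pool.Agent.R386.HY

open NumberField Polynomial Equiv
open Pool.Agent.R433.MD

/-- the discriminant is a cube -/
def CubeDisc {F : Type} [Field F] (E : WeierstrassCurve F) : Prop := ∃ z : F, z ^ 3 = E.Δ

/-- there is a rational subgroup of order three: the third division polynomial has a root -/
def HasThree {F : Type} [Field F] (E : WeierstrassCurve F) : Prop :=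
  ∃ x : F, 3 * x ^ 4 + E.b₂ * x ^ 3 + 3 * E.b₄ * x ^ 2 + 3 * E.b₆ * x + E.b₈ = 0

section
variable {K : Type} [Field K] [NumberField K] (E : WeierstrassCurve K)

/-- the factorisation of the third division polynomial -/
theorem vieta {L : Type} [Field L] [CharZero L] [Algebra K L]
    (hs : (E.Ψ₃.map (algebraMap K L)).Splits) :
    ∃ a b c d : L,
      algebraMap K L E.b₂ = -3 * (a + b + c + d) ∧
      algebraMap K L E.b₄ = a * b + a * c + a * d + b * c + b * d + c * d ∧
      algebraMap K L E.b₆ = -(a * b * c + a * b * d + a * c * d + b * c * d) ∧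
      algebraMap K L E.b₈ = 3 * (a * b * c * d) ∧
      ∀ x : L, aeval x E.Ψ₃ = 3 * ((x - a) * (x - b) * (x - c) * (x - d)) := by
  have h3 : (3 : K) ≠ 0 := by norm_num
  have hdeg : (E.Ψ₃.map (algebraMap K L)).natDegree = 4 := by
    rw [natDegree_map, E.natDegree_Ψ₃ h3]
  have hlead : (E.Ψ₃.map (algebraMap K L)).leadingCoeff = 3 := by
    rw [leadingCoeff_map, E.leadingCoeff_Ψ₃ h3, map_ofNat]
  have hcard : Multiset.card (E.Ψ₃.map (algebraMap K L)).roots = 4 := by
    rw [← hs.natDegree_eq_card_roots, hdeg]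
  have hprod := hs.eq_prod_roots
  obtain ⟨l, hl⟩ : ∃ l : List L, (l : Multiset L) = (E.Ψ₃.map (algebraMap K L)).roots :=
    ⟨_, Multiset.coe_toList _⟩
  rw [← hl] at hcard hprod
  rw [Multiset.coe_card] at hcard
  obtain ⟨a, b, c, d, rfl⟩ : ∃ a b c d : L, l = [a, b, c, d] := by
    match l, hcard with
    | [a, b, c, d], _ => exact ⟨a, b, c, d, rfl⟩
  have heval : ∀ x : L, aeval x E.Ψ₃ = 3 * ((x - a) * (x - b) * (x - c) * (x - d)) := by
    intro x
    rw [aeval_def, ← eval_map, hprod, hlead]
    simp [mul_assoc]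
  have hx : ∀ x : L, 3 * x ^ 4 + algebraMap K L E.b₂ * x ^ 3 + 3 * algebraMap K L E.b₄ * x ^ 2 +
      3 * algebraMap K L E.b₆ * x + algebraMap K L E.b₈ =
        3 * ((x - a) * (x - b) * (x - c) * (x - d)) := by
    intro x
    rw [← heval]
    simp only [WeierstrassCurve.Ψ₃, map_add, map_mul, map_pow, aeval_X, aeval_C, map_ofNat]
  have e0 := hx 0
  have e1 := hx 1
  have e2 := hx (-1)
  have e3 := hx 2
  have h8 : algebraMap K L E.b₈ = 3 * (a * b * c * d) := by linear_combination e0
  have h4 : algebraMap K L E.b₄ = a * b + a * c + a * d + b * c + b * d + c * d := by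
    linear_combination (1 / 6 : L) * e1 + (1 / 6 : L) * e2 - (1 / 3 : L) * e0
  have h26 : algebraMap K L E.b₂ + 3 * algebraMap K L E.b₆ = -3 * (a + b + c + d) -
      3 * (a * b * c + a * b * d + a * c * d + b * c * d) := by
    linear_combination (1 / 2 : L) * e1 - (1 / 2 : L) * e2
  have h86 : 8 * algebraMap K L E.b₂ + 6 * algebraMap K L E.b₆ = -24 * (a + b + c + d) -
      6 * (a * b * c + a * b * d + a * c * d + b * c * d) := by
    linear_combination e3 - 12 * h4 - h8
  have h2 : algebraMap K L E.b₂ = -3 * (a + b + c + d) := by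
    linear_combination (1 / 6 : L) * h86 - (1 / 3 : L) * h26
  have h6 : algebraMap K L E.b₆ = -(a * b * c + a * b * d + a * c * d + b * c * d) := by
    linear_combination (1 / 3 : L) * h26 - (1 / 3 : L) * h2
  exact ⟨a, b, c, d, h2, h4, h6, h8, heval⟩

/-- **The relation.** -/
theorem cube_rel (hE : E.IsElliptic) :
    ∃ (L : Type) (_ : Field L) (_ : NumberField L) (_ : Algebra K L) (_ : IsGalois K L)
      (S : Finset (IntermediateField K L)) (n : IntermediateField K L → ℤ),
      (∀ F ∈ S, (CubeDisc (E.map (algebraMap K F)) ∨ HasThree (E.map (algebraMap K F))) ∧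
        Module.finrank K F ≤ 6) ∧
      ∀ g : Gal(L/K), ∑ F ∈ S, n F * fx F.fixingSubgroup g = 1 := by
  classical
  let p : K[X] := E.Ψ₃
  let L := p.SplittingField
  have hn : Normal K L := Normal.of_isSplittingField p
  have hgal : IsGalois K L := ⟨⟩
  have hchar : CharZero L := charZero_of_injective_algebraMap (algebraMap K L).injective
  have hnf : NumberField L := NumberField.of_module_finite K L
  refine ⟨L, inferInstance, hnf, inferInstance, hgal, ?_⟩
  obtain ⟨a, b, c, d, h2, h4, h6, h8, heval⟩ := vieta E (L := L) (SplittingField.splits p)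
  have hr : 4 * algebraMap K L E.b₈ = algebraMap K L E.b₂ * algebraMap K L E.b₆ -
      algebraMap K L E.b₄ ^ 2 := by
    have := congrArg (algebraMap K L) E.b_relation
    simp only [map_mul, map_sub, map_pow, map_ofNat] at this
    exact this
  have hΔe : algebraMap K L E.Δ = -algebraMap K L E.b₂ ^ 2 * algebraMap K L E.b₈ -
      8 * algebraMap K L E.b₄ ^ 3 - 27 * algebraMap K L E.b₆ ^ 2 +
      9 * algebraMap K L E.b₂ * algebraMap K L E.b₄ * algebraMap K L E.b₆ := by
    rw [WeierstrassCurve.Δ]
    simp only [map_add, map_sub, map_mul, map_pow, map_neg, map_ofNat]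
  have hΔ0 : algebraMap K L E.Δ ≠ 0 := by
    rw [Ne, map_eq_zero_iff _ (algebraMap K L).injective]
    exact E.isUnit_Δ.ne_zero
  rw [hΔe] at hΔ0
  -- the four roots
  let x : Fin 4 → L := ![a, b, c, d]
  have hp : ∀ (i j : Fin 4), i ≠ j → x i ≠ x j := by
    have hab : a ≠ b := ne_of_res (a := a) (b := c) (c := d) (d := b) (by linear_combination h2)
      (by linear_combination h4) (by linear_combination h6) (by linear_combination h8) hr hΔ0
    have hac : a ≠ c := ne_of_res (a := a) (b := b) (c := d) (d := c) (by linear_combination h2)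
      (by linear_combination h4) (by linear_combination h6) (by linear_combination h8) hr hΔ0
    have had : a ≠ d := ne_of_res (a := a) (b := b) (c := c) (d := d) h2 h4 h6 h8 hr hΔ0
    have hbc : b ≠ c := ne_of_res (a := b) (b := a) (c := d) (d := c) (by linear_combination h2)
      (by linear_combination h4) (by linear_combination h6) (by linear_combination h8) hr hΔ0
    have hbd : b ≠ d := ne_of_res (a := b) (b := a) (c := c) (d := d) (by linear_combination h2)
      (by linear_combination h4) (by linear_combination h6) (by linear_combination h8) hr hΔ0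
    have hcd : c ≠ d := ne_of_res (a := c) (b := a) (c := b) (d := d) (by linear_combination h2)
      (by linear_combination h4) (by linear_combination h6) (by linear_combination h8) hr hΔ0
    intro i j hij
    fin_cases i <;> fin_cases j <;> first
      | exact absurd rfl hij
      | assumption
      | exact Ne.symm (by assumption)
  have hxinj : Function.Injective x := fun i j h => by
    by_contra hij
    exact hp i j hij h
  have hroot : ∀ i, aeval (x i) E.Ψ₃ = 0 := by
    intro i
    rw [heval]
    fin_cases i <;> simp [x]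
  have hall : ∀ y : L, aeval y E.Ψ₃ = 0 → ∃ j, y = x j := by
    intro y hy
    rw [heval] at hy
    have h3 : (3 : L) ≠ 0 := by norm_num
    have h5 := (mul_eq_zero.1 hy).resolve_left h3
    rcases mul_eq_zero.1 h5 with h5 | h5
    · rcases mul_eq_zero.1 h5 with h5 | h5
      · rcases mul_eq_zero.1 h5 with h5 | h5
        · exact ⟨0, sub_eq_zero.1 h5⟩
        · exact ⟨1, sub_eq_zero.1 h5⟩
      · exact ⟨2, sub_eq_zero.1 h5⟩
    · exact ⟨3, sub_eq_zero.1 h5⟩
  have hex : ∀ (σ : Gal(L/K)) (i : Fin 4), ∃ j, σ (x i) = x j := by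
    intro σ i
    apply hall
    have h5 := aeval_algHom_apply (σ : L →ₐ[K] L) (x i) E.Ψ₃
    have h6 : aeval (σ (x i)) E.Ψ₃ = σ (aeval (x i) E.Ψ₃) := h5
    rw [h6, hroot, map_zero]
  choose q hq using hex
  let act4 : MulAction Gal(L/K) (Fin 4) :=
    { smul := fun σ i => q σ i
      one_smul := fun i => hxinj ((hq 1 i).symm)
      mul_smul := fun σ τ i => hxinj (by
        change x (q (σ * τ) i) = x (q σ (q τ i))
        rw [← hq, ← hq, ← hq]
        rfl) }
  let ρ : Gal(L/K) →* Perm (Fin 4) := MulAction.toPermHom Gal(L/K) (Fin 4)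
  have hρ : ∀ σ i, σ (x i) = x (ρ σ i) := hq
  let act3 : MulAction Gal(L/K) Y3 :=
    { smul := fun σ τ => ⟨ρ σ * τ.1 * (ρ σ)⁻¹, by
        have e : ρ σ * τ.1 * (ρ σ)⁻¹ * (ρ σ * τ.1 * (ρ σ)⁻¹) = ρ σ * (τ.1 * τ.1) * (ρ σ)⁻¹ := by
          group
        rw [e, τ.2.1, mul_one, mul_inv_cancel], fun i h => by
        apply τ.2.2 ((ρ σ)⁻¹ i)
        rw [Perm.mul_apply, Perm.mul_apply] at h
        exact ((ρ σ)).injective (h.trans (by simp))⟩
      one_smul := fun τ => Subtype.ext (by
        change ρ 1 * τ.1 * (ρ 1)⁻¹ = τ.1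
        rw [map_one]
        group)
      mul_smul := fun σ σ' τ => Subtype.ext (by
        change ρ (σ * σ') * τ.1 * (ρ (σ * σ'))⁻¹ = ρ σ * (ρ σ' * τ.1 * (ρ σ')⁻¹) * (ρ σ)⁻¹
        rw [map_mul]
        group) }
  let act6 : MulAction Gal(L/K) Y6 :=
    { smul := fun σ s => ⟨s.1.map (ρ σ).toEmbedding, by rw [Finset.card_map]; exact s.2⟩
      one_smul := fun s => Subtype.ext (by
        change s.1.map (ρ 1).toEmbedding = s.1
        rw [map_one]
        exact Finset.map_refl)
      mul_smul := fun σ σ' s => Subtype.ext (by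
        change s.1.map (ρ (σ * σ')).toEmbedding = (s.1.map (ρ σ').toEmbedding).map (ρ σ).toEmbedding
        rw [map_mul, Finset.map_map]
        congr 1) }
  -- the good fields
  let 𝓕 : Set (IntermediateField K L) := {F | (CubeDisc (E.map (algebraMap K F)) ∨
    HasThree (E.map (algebraMap K F))) ∧ Module.finrank K F ≤ 6}
  let A : Submodule ℤ (Gal(L/K) → ℤ) :=
    Submodule.span ℤ (Set.range fun F : 𝓕 => fx F.1.fixingSubgroup)
  have hfieldH : ∀ H : Subgroup Gal(L/K), (CubeDisc (E.map (algebraMap K
      (IntermediateField.fixedField H))) ∨ HasThree (E.map (algebraMap K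
      (IntermediateField.fixedField H)))) → H.index ≤ 6 → fx H ∈ A := by
    intro H h1 h2
    have e : (IntermediateField.fixedField H).fixingSubgroup = H :=
      IntermediateField.fixingSubgroup_fixedField _
    have h5 : Module.finrank K (IntermediateField.fixedField H) ≤ 6 := by
      have h6 := IntermediateField.finrank_fixedField_eq_card H
      have h7 := Module.finrank_mul_finrank K (IntermediateField.fixedField H) L
      have h8 := H.index_mul_card
      rw [h6] at h7
      rw [IsGalois.card_aut_eq_finrank, ← h7] at h8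
      have h9 : 0 < Nat.card H := Nat.card_pos
      rw [← Nat.eq_of_mul_eq_mul_right h9 h8]
      exact h2
    refine Submodule.subset_span ⟨⟨IntermediateField.fixedField H, h1, h5⟩, ?_⟩
    change fx (IntermediateField.fixedField H).fixingSubgroup = fx H
    rw [e]
  have hind : ∀ (Y : Type) [MulAction Gal(L/K) Y] [Fintype Y] (y : Y), Fintype.card Y ≤ 6 →
      (MulAction.stabilizer Gal(L/K) y).index ≤ 6 := by
    intro Y _ _ y h
    rw [MulAction.index_stabilizer]
    calc (MulAction.orbit Gal(L/K) y).ncard ≤ (Set.univ : Set Y).ncard :=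
          Set.ncard_le_ncard (Set.subset_univ _)
      _ = Fintype.card Y := by rw [Set.ncard_univ, Nat.card_eq_fintype_card]
      _ ≤ 6 := h
  have hcubeOf : ∀ (H : Subgroup Gal(L/K)) (τ : Y3), (∀ σ ∈ H, ρ σ * τ.1 * (ρ σ)⁻¹ = τ.1) →
      CubeDisc (E.map (algebraMap K (IntermediateField.fixedField H))) := by
    intro H τ hH
    let w : L := (3 / 2 : L) * ∑ i, x i * x (τ.1 i) - algebraMap K L E.b₄
    have hw : w ^ 3 = -algebraMap K L E.Δ := by
      rw [hΔe]
      have hx0 : x 0 = a := rfl
      have hx1 : x 1 = b := rfl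
      have hx2 : x 2 = c := rfl
      have hx3 : x 3 = d := rfl
      rcases cases3 τ with ⟨t0, t1, t2, t3⟩ | ⟨t0, t1, t2, t3⟩ | ⟨t0, t1, t2, t3⟩
      · have hwe : w = 3 * (a * b + c * d) - algebraMap K L E.b₄ := by
          simp only [w, Fin.sum_univ_four, t0, t1, t2, t3, hx0, hx1, hx2, hx3]
          ring
        rw [hwe]
        exact cube_res h2 h4 h6 h8 hr
      · have hwe : w = 3 * (a * c + b * d) - algebraMap K L E.b₄ := by
          simp only [w, Fin.sum_univ_four, t0, t1, t2, t3, hx0, hx1, hx2, hx3]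
          ring
        rw [hwe]
        exact cube_res (by linear_combination h2) (by linear_combination h4)
          (by linear_combination h6) (by linear_combination h8) hr
      · have hwe : w = 3 * (a * d + b * c) - algebraMap K L E.b₄ := by
          simp only [w, Fin.sum_univ_four, t0, t1, t2, t3, hx0, hx1, hx2, hx3]
          ring
        rw [hwe]
        exact cube_res (by linear_combination h2) (by linear_combination h4)
          (by linear_combination h6) (by linear_combination h8) hr
    have hfix : ∀ σ ∈ H, σ w = w := by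
      intro σ hσ
      have h5 : ∀ i, ρ σ (τ.1 i) = τ.1 (ρ σ i) := by
        intro i
        have h6 := hH σ hσ
        rw [mul_inv_eq_iff_eq_mul] at h6
        exact congrArg (fun π : Perm (Fin 4) => π i) h6
      simp only [w, map_sub, map_mul, map_sum, AlgEquiv.commutes, map_div₀, map_ofNat]
      congr 2
      rw [← Equiv.sum_comp (ρ σ) (fun i => x i * x (τ.1 i))]
      refine Finset.sum_congr rfl fun i _ => ?_
      rw [hρ, hρ, h5]
    refine ⟨-⟨w, fun σ => hfix σ.1 σ.2⟩, ?_⟩
    apply (algebraMap (IntermediateField.fixedField H) L).injective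
    rw [WeierstrassCurve.map_Δ, ← IsScalarTower.algebraMap_apply, map_pow, map_neg]
    change (-w) ^ 3 = algebraMap K L E.Δ
    linear_combination -hw
  -- the three permutation characters
  have m4 : (fun g : Gal(L/K) => (Nat.card {y : Fin 4 // g • y = y} : ℤ)) ∈ A := by
    refine fixed_mem (Fin 4) A fun i => hfieldH _ (Or.inr ?_) (hind (Fin 4) i (by simp))
    refine ⟨⟨x i, fun σ => ?_⟩, ?_⟩
    · have h5 : σ.1 • i = i := σ.2
      change σ.1 (x i) = x i
      rw [hρ]
      exact congrArg x h5
    · apply (algebraMap (IntermediateField.fixedField (MulAction.stabilizer Gal(L/K) i)) L).injective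
      have h5 := hroot i
      simp only [WeierstrassCurve.Ψ₃, map_add, map_mul, map_pow, aeval_X, aeval_C, map_ofNat] at h5
      rw [WeierstrassCurve.map_b₂, WeierstrassCurve.map_b₄, WeierstrassCurve.map_b₆,
        WeierstrassCurve.map_b₈]
      simp only [map_add, map_mul, map_pow, map_ofNat, map_zero, ← IsScalarTower.algebraMap_apply]
      exact h5
  have m3 : (fun g : Gal(L/K) => (Nat.card {y : Y3 // g • y = y} : ℤ)) ∈ A := by
    refine fixed_mem Y3 A fun τ => hfieldH _ (Or.inl ?_) (hind Y3 τ (by decide +kernel))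
    exact hcubeOf _ τ fun σ hσ => congrArg Subtype.val hσ
  have m6 : (fun g : Gal(L/K) => (Nat.card {y : Y6 // g • y = y} : ℤ)) ∈ A := by
    refine fixed_mem Y6 A fun s => hfieldH _ (Or.inl ?_) (hind Y6 s (by decide +kernel))
    obtain ⟨τ, hτ⟩ := two_of_six s
    exact hcubeOf _ τ fun σ hσ => hτ (ρ σ) (congrArg Subtype.val hσ)
  have hone : (fun _ : Gal(L/K) => (1 : ℤ)) ∈ A := by
    have h5 := A.sub_mem (A.add_mem m4 m3) m6
    convert h5 using 1
    funext g
    rw [Pi.sub_apply, Pi.add_apply]
    have h6 := count4 (ρ g)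
    have e4 : Nat.card {y : Fin 4 // g • y = y} = Fintype.card {i : Fin 4 // ρ g i = i} := by
      rw [← Nat.card_eq_fintype_card]
      rfl
    have e3 : Nat.card {y : Y3 // g • y = y} =
        Fintype.card {τ : Y3 // ρ g * τ.1 * (ρ g)⁻¹ = τ.1} := by
      rw [← Nat.card_eq_fintype_card]
      exact Nat.card_congr (Equiv.subtypeEquivRight fun τ => Subtype.ext_iff)
    have e6 : Nat.card {y : Y6 // g • y = y} =
        Fintype.card {s : Y6 // s.1.map (ρ g).toEmbedding = s.1} := by
      rw [← Nat.card_eq_fintype_card]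
      exact Nat.card_congr (Equiv.subtypeEquivRight fun s => Subtype.ext_iff)
    rw [e4, e3, e6]
    have h7 : ((Fintype.card {i : Fin 4 // ρ g i = i} +
        Fintype.card {τ : Y3 // ρ g * τ.1 * (ρ g)⁻¹ = τ.1} : ℕ) : ℤ) =
      ((1 + Fintype.card {s : Y6 // s.1.map (ρ g).toEmbedding = s.1} : ℕ) : ℤ) := by
      rw [h6]
    push_cast at h7
    linarith
  -- extraction
  have hfinI : Finite (IntermediateField K L) :=
    Finite.of_equiv _ (IsGalois.intermediateFieldEquivSubgroup (F := K) (E := L)).toEquiv.symm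
  let _ : Fintype 𝓕 := Fintype.ofFinite _
  let _ : Fintype (IntermediateField K L) := Fintype.ofFinite _
  obtain ⟨cf, hcf⟩ := (Submodule.mem_span_range_iff_exists_fun ℤ).1 hone
  refine ⟨Finset.univ.filter (· ∈ 𝓕), fun F => if h : F ∈ 𝓕 then cf ⟨F, h⟩ else 0,
    fun F hF => (Finset.mem_filter.1 hF).2, fun g => ?_⟩
  have h1 := congrFun hcf g
  rw [Finset.sum_apply] at h1
  rw [← h1]
  have h2 : ∀ i : 𝓕, (cf i • fx i.1.fixingSubgroup) g =
      (if h : i.1 ∈ 𝓕 then cf ⟨i.1, h⟩ else 0) * fx i.1.fixingSubgroup g := by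
    intro i
    rw [dif_pos i.2, Pi.smul_apply, smul_eq_mul]
  rw [Finset.sum_congr rfl fun i _ => h2 i]
  exact (Finset.sum_subtype (Finset.univ.filter (· ∈ 𝓕)) (fun F => by simp)
    (fun F => (if h : F ∈ 𝓕 then cf ⟨F, h⟩ else 0) * fx F.fixingSubgroup g))

end

end Pool.Agent.R386.HY
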