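import Pool.Agent.R386.HY.Orb

/-!
# Relations between the numbers of primes with given residue degrees
-/

set_option autoImplicit false

namespace Pool.Agent.R386.HY

open NumberField IsDedekindDomain
open Pool.Agent.R433.MD

section
variable {K L : Type} [Field K] [NumberField K] [Field L] [NumberField L] [Algebra K L]
  [IsGalois K L]

/-- the number of primes with a given residue degree -/
noncomputable def nd (F : Type) [Field F] [NumberField F] [Algebra K F]
    (v : HeightOneSpectrum (𝓞 K)) (d : ℕ) : ℕ := Nat.card {w : Fib F v // fdeg w = d}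

omit [NumberField L] [Algebra K L] [IsGalois K L] [Field L] in
theorem ker_base (v : HeightOneSpectrum (𝓞 K)) (k : Type) [Field k] [Algebra (𝓞 K ⧸ v.asIdeal) k] :
    RingHom.ker (base v k) ≠ ⊥ := by
  have h1 : RingHom.ker (base v k) = v.asIdeal := by
    ext x
    rw [RingHom.mem_ker, base, RingHom.comp_apply,
      map_eq_zero_iff _ (algebraMap (𝓞 K ⧸ v.asIdeal) k).injective,
      Ideal.Quotient.eq_zero_iff_mem]
  rw [h1]
  exact v.ne_bot

omit [NumberField L] [Algebra K L] [IsGalois K L] [Field L] in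
theorem sum_fdeg (F : Type) [Field F] [NumberField F] [Algebra K F]
    (v : HeightOneSpectrum (𝓞 K)) {n : ℕ} (hn : 0 < n) :
    (∑ w : Fib F v, if fdeg w ∣ n then fdeg w else 0) = ∑ d ∈ n.divisors, d * nd F v d := by
  classical
  have h1 : ∀ d, nd F v d = ∑ w : Fib F v, if fdeg w = d then 1 else 0 := by
    intro d
    rw [Finset.sum_boole, nd, Nat.card_eq_fintype_card, Fintype.card_subtype]
    simp
  simp_rw [h1, Finset.mul_sum]
  rw [Finset.sum_comm]
  refine Finset.sum_congr rfl fun w _ => ?_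
  simp_rw [mul_ite, mul_one, mul_zero]
  rw [Finset.sum_ite_eq]
  refine if_congr ?_ rfl rfl
  rw [Nat.mem_divisors]
  exact ⟨fun h => ⟨h, hn.ne'⟩, fun h => h.1⟩

variable {ι : Type} [Fintype ι] (F : ι → Type) [∀ i, Field (F i)] [∀ i, NumberField (F i)]
  [∀ i, Algebra K (F i)] (f : ∀ i, F i →ₐ[K] L) (e : ι → ℤ)

/-- the numbers of primes with a given residue degree satisfy the relation -/
theorem nd_rel (h : ∀ g : Gal(L/K), ∑ i, e i * fx (f i).fieldRange.fixingSubgroup g = 0)
    (v : HeightOneSpectrum (𝓞 K)) : ∀ d : ℕ, 0 < d → ∑ i, e i * (nd (F i) v d : ℤ) = 0 := by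
  classical
  intro d
  induction d using Nat.strong_induction_on with
  | _ d ih =>
    intro hd
    obtain ⟨k, iF, iFin, iA, hk⟩ := exists_ext (𝓞 K ⧸ v.asIdeal) hd
    have h1 := nh_rel F f e h (base v k) (ker_base v k)
    have h2 : ∀ i, (nh (F i) (base v k) : ℤ) = ∑ d' ∈ d.divisors, (d' : ℤ) * (nd (F i) v d' : ℤ) := by
      intro i
      rw [nh_eq, hk, sum_fdeg (F i) v hd]
      push_cast
      rfl
    simp_rw [h2, Finset.mul_sum] at h1
    rw [Finset.sum_comm] at h1
    have h3 : ∀ d' ∈ d.divisors, ∑ i, e i * ((d' : ℤ) * (nd (F i) v d' : ℤ)) =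
        (d' : ℤ) * ∑ i, e i * (nd (F i) v d' : ℤ) := by
      intro d' _
      rw [Finset.mul_sum]
      refine Finset.sum_congr rfl fun i _ => ?_
      ring
    rw [Finset.sum_congr rfl h3, ← Nat.cons_self_properDivisors hd.ne', Finset.sum_cons,
      Finset.sum_eq_zero (s := d.properDivisors) (fun d' hd' => by
        have h4 := Nat.mem_properDivisors.1 hd'
        rw [ih d' h4.2 (Nat.pos_of_mem_properDivisors hd'), mul_zero]), add_zero] at h1
    exact (mul_eq_zero.1 h1).resolve_left (by exact_mod_cast hd.ne')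

/-- the numbers of primes with a property which depends only on the residue degree -/
theorem prop_rel (h : ∀ g : Gal(L/K), ∑ i, e i * fx (f i).fieldRange.fixingSubgroup g = 0)
    (v : HeightOneSpectrum (𝓞 K)) (P : ℕ → Prop) :
    ∑ i, e i * (Nat.card {w : Fib (F i) v // P (fdeg w)} : ℤ) = 0 := by
  classical
  let B : ℕ := ∑ i, ∑ w : Fib (F i) v, fdeg w
  have hB : ∀ i (w : Fib (F i) v), fdeg w ∈ Finset.Icc 1 B := by
    intro i w
    rw [Finset.mem_Icc]
    refine ⟨fdeg_pos w, ?_⟩
    calc fdeg w ≤ ∑ w : Fib (F i) v, fdeg w :=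
          Finset.single_le_sum (f := fun w : Fib (F i) v => fdeg w) (fun _ _ => Nat.zero_le _)
            (Finset.mem_univ w)
      _ ≤ B := Finset.single_le_sum (f := fun i => ∑ w : Fib (F i) v, fdeg w)
            (fun _ _ => Nat.zero_le _) (Finset.mem_univ i)
  have h1 : ∀ i, (Nat.card {w : Fib (F i) v // P (fdeg w)} : ℤ) =
      ∑ d ∈ Finset.Icc 1 B, if P d then (nd (F i) v d : ℤ) else 0 := by
    intro i
    have h2 : ∀ d, (nd (F i) v d : ℤ) = ∑ w : Fib (F i) v, if fdeg w = d then (1 : ℤ) else 0 := by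
      intro d
      rw [Finset.sum_boole, nd, Nat.card_eq_fintype_card, Fintype.card_subtype]
    have h3 : (Nat.card {w : Fib (F i) v // P (fdeg w)} : ℤ) =
        ∑ w : Fib (F i) v, if P (fdeg w) then (1 : ℤ) else 0 := by
      rw [Finset.sum_boole, Nat.card_eq_fintype_card, Fintype.card_subtype]
    rw [h3]
    have h4 : ∀ d ∈ Finset.Icc 1 B, (if P d then (nd (F i) v d : ℤ) else 0) =
        ∑ w : Fib (F i) v, if fdeg w = d then (if P d then (1 : ℤ) else 0) else 0 := by
      intro d _
      by_cases hP : P d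
      · simp only [if_pos hP]
        exact h2 d
      · simp only [if_neg hP, ite_self, Finset.sum_const_zero]
    rw [Finset.sum_congr rfl h4, Finset.sum_comm]
    refine Finset.sum_congr rfl fun w _ => ?_
    rw [Finset.sum_ite_eq, if_pos (hB i w)]
  simp_rw [h1, Finset.mul_sum]
  rw [Finset.sum_comm]
  refine Finset.sum_eq_zero fun d hd => ?_
  by_cases hP : P d
  · simp only [if_pos hP]
    exact nd_rel F f e h v d (Finset.mem_Icc.1 hd).1
  · simp only [if_neg hP, mul_zero, Finset.sum_const_zero]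

end

end Pool.Agent.R386.HY
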