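import Mathlib

/-!
# Signs of permutations and fixed points of their powers
-/

set_option autoImplicit false

namespace Pool.Agent.R386.HY

open Equiv.Perm

theorem sum_dvd {m : ℕ} (hm : 0 < m) (j : ℕ) :
    ∑ k ∈ Finset.range (m * j), (if m ∣ k then 0 else m) = m * j * (m - 1) := by
  induction j with
  | zero => simp
  | succ j ih =>
    rw [Nat.mul_succ, Finset.sum_range_add, ih]
    have h1 : ∀ k ∈ Finset.range m, (if m ∣ m * j + k then 0 else m) = if k = 0 then 0 else m := by
      intro k hk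
      have h2 : m ∣ m * j + k ↔ k = 0 := by
        rw [Nat.dvd_add_right (dvd_mul_right m j)]
        constructor
        · intro h
          exact Nat.eq_zero_of_dvd_of_lt h (Finset.mem_range.1 hk)
        · rintro rfl
          exact dvd_zero m
      simp only [h2]
    rw [Finset.sum_congr rfl h1]
    obtain ⟨n, rfl⟩ : ∃ n, m = n + 1 := ⟨m - 1, by omega⟩
    rw [Finset.sum_range_succ']
    simp
    ring

theorem sgn_aux {X : Type} [Fintype X] [DecidableEq X] (σ : Equiv.Perm X) :
    ∀ N : ℕ, 0 < N → σ ^ N = 1 → ∃ t : ℕ, N * t = ∑ k ∈ Finset.range N, (σ ^ k).support.card ∧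
      Equiv.Perm.sign σ = (-1) ^ t := by
  induction σ using Equiv.Perm.cycle_induction_on with
  | base_one => exact fun N _ _ => ⟨0, by simp, by simp⟩
  | base_cycles σ hσ =>
    intro N hN h
    have hm := hσ.two_le_card_support
    refine ⟨σ.support.card - 1, ?_, ?_⟩
    · obtain ⟨j, hj⟩ := orderOf_dvd_of_pow_eq_one h
      rw [hσ.orderOf] at hj
      have h1 : ∀ k ∈ Finset.range N, (σ ^ k).support.card =
          if σ.support.card ∣ k then 0 else σ.support.card := by
        intro k _
        split_ifs with hk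
        · rw [← hσ.orderOf, orderOf_dvd_iff_pow_eq_one] at hk
          rw [hk]
          simp
        · rw [← hσ.orderOf] at hk
          rw [(hσ.support_pow_eq_iff).2 hk]
      rw [Finset.sum_congr rfl h1, hj, sum_dvd (by omega)]
    · rw [hσ.sign]
      obtain ⟨n, hn⟩ : ∃ n, σ.support.card = n + 1 := ⟨σ.support.card - 1, by omega⟩
      rw [hn, Nat.add_sub_cancel, pow_succ]
      simp
  | induction_disjoint σ τ hd _ h1 h2 =>
    intro N hN h
    rw [hd.commute.mul_pow, (hd.pow_disjoint_pow N N).mul_eq_one_iff] at h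
    obtain ⟨t, ht, hs⟩ := h1 N hN h.1
    obtain ⟨t', ht', hs'⟩ := h2 N hN h.2
    refine ⟨t + t', ?_, ?_⟩
    · rw [mul_add, ht, ht', ← Finset.sum_add_distrib]
      refine Finset.sum_congr rfl fun k _ => ?_
      rw [hd.commute.mul_pow, (hd.pow_disjoint_pow k k).card_support_mul]
    · rw [Equiv.Perm.sign_mul, hs, hs', pow_add]

/-- relations between fixed points give relations between signs -/
theorem sign_rel {ι : Type} [Fintype ι] (X : ι → Type) [∀ i, Fintype (X i)]
    [∀ i, DecidableEq (X i)] (σ : ∀ i, Equiv.Perm (X i)) (e : ι → ℤ)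
    (h : ∀ k : ℕ, ∑ i, e i * (Nat.card {x : X i // (σ i ^ k) x = x} : ℤ) = 0) :
    ∏ i, Equiv.Perm.sign (σ i) ^ e i = 1 := by
  classical
  set N := ∏ i, orderOf (σ i) with hN
  have hN0 : 0 < N := Finset.prod_pos fun i _ => orderOf_pos (σ i)
  have h1 : ∀ i, ∃ t : ℕ, N * t = ∑ k ∈ Finset.range N, (σ i ^ k).support.card ∧
      Equiv.Perm.sign (σ i) = (-1) ^ t := fun i =>
    sgn_aux (σ i) N hN0 (orderOf_dvd_iff_pow_eq_one.1 (Finset.dvd_prod_of_mem _ (Finset.mem_univ i)))
  choose t ht hs using h1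
  have h2 : ∀ i (k : ℕ), ((σ i ^ k).support.card : ℤ) = (Nat.card {x : X i // (σ i ^ 0) x = x} : ℤ)
      - (Nat.card {x : X i // (σ i ^ k) x = x} : ℤ) := by
    intro i k
    have h3 : (σ i ^ k).support = Finset.univ.filter fun x => ¬ (σ i ^ k) x = x := by
      ext x
      simp
    have h4 : Nat.card {x : X i // (σ i ^ k) x = x} =
        (Finset.univ.filter fun x => (σ i ^ k) x = x).card := by
      rw [Nat.card_eq_fintype_card, Fintype.card_subtype]
    have h5 : Nat.card {x : X i // (σ i ^ 0) x = x} = Fintype.card (X i) := by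
      rw [← Nat.card_eq_fintype_card]
      exact Nat.card_congr (Equiv.subtypeUnivEquiv fun x => by simp)
    have h6 := Finset.card_filter_add_card_filter_not (s := (Finset.univ : Finset (X i)))
      (fun x => (σ i ^ k) x = x)
    rw [Finset.card_univ] at h6
    rw [h3, h4, h5, ← h6]
    push_cast
    ring
  have h3 : (N : ℤ) * ∑ i, e i * (t i : ℤ) = 0 := by
    have h4 : (N : ℤ) * ∑ i, e i * (t i : ℤ) =
        ∑ i, e i * ∑ k ∈ Finset.range N, ((σ i ^ k).support.card : ℤ) := by
      rw [Finset.mul_sum]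
      refine Finset.sum_congr rfl fun i _ => ?_
      have h5 : ((N * t i : ℕ) : ℤ) = ((∑ k ∈ Finset.range N, (σ i ^ k).support.card : ℕ) : ℤ) := by
        rw [ht i]
      push_cast at h5
      rw [← h5]
      ring
    rw [h4]
    simp_rw [Finset.mul_sum]
    rw [Finset.sum_comm]
    refine Finset.sum_eq_zero fun k _ => ?_
    simp_rw [h2, mul_sub]
    rw [Finset.sum_sub_distrib, h 0, h k, sub_zero]
  have h4 : ∑ i, e i * (t i : ℤ) = 0 := by
    rcases mul_eq_zero.1 h3 with h5 | h5
    · exfalso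
      have : N = 0 := by exact_mod_cast h5
      omega
    · exact h5
  have h5 : ∀ i, Equiv.Perm.sign (σ i) ^ e i = (-1 : ℤˣ) ^ (e i * (t i : ℤ)) := by
    intro i
    rw [hs i, mul_comm, zpow_mul, zpow_natCast]
  simp_rw [h5]
  have h6 : ∀ (s : Finset ι), ∏ i ∈ s, (-1 : ℤˣ) ^ (e i * (t i : ℤ)) =
      (-1 : ℤˣ) ^ (∑ i ∈ s, e i * (t i : ℤ)) := by
    intro s
    induction s using Finset.induction_on with
    | empty => simp
    | insert a s ha ih => rw [Finset.prod_insert ha, Finset.sum_insert ha, ih, zpow_add]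
  rw [h6, h4, zpow_zero]

end Pool.Agent.R386.HY
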