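import Pool.Agent.R386.HY.Fix
import Pool.Agent.R386.HY.Sgn

/-!
# Relations between discriminants modulo squares
-/

set_option autoImplicit false

namespace Pool.Agent.R386.HY

open NumberField
open Pool.Agent.R433.MD (fx)

open scoped Classical

/-- an algebraic closure of the rational field -/
abbrev QB : Type := AlgebraicClosure ℚ

theorem normalQB : Normal ℚ QB := by
  have hA : Algebra.IsAlgebraic ℚ QB := by
    have h := AlgebraicClosure.isAlgebraic ℚ
    convert! h
  exact normal_iff.2 fun x => ⟨(hA.isAlgebraic x).isIntegral, IsAlgClosed.splits _⟩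

/-- the permutation of the embeddings -/
noncomputable def pm (F : Type) [Field F] [NumberField F] (g : QB ≃ₐ[ℚ] QB) :
    Equiv.Perm (F →ₐ[ℚ] QB) where
  toFun τ := (g : QB →ₐ[ℚ] QB).comp τ
  invFun τ := (g.symm : QB →ₐ[ℚ] QB).comp τ
  left_inv τ := by ext x; exact g.symm_apply_apply (τ x)
  right_inv τ := by ext x; exact g.apply_symm_apply (τ x)

theorem pm_pow {F : Type} [Field F] [NumberField F] (g : QB ≃ₐ[ℚ] QB) (k : ℕ)
    (τ : F →ₐ[ℚ] QB) (x : F) : ((pm F g) ^ k) τ x = (g ^ k) (τ x) := by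
  induction k generalizing τ with
  | zero => simp
  | succ k ih =>
    rw [pow_succ, Equiv.Perm.mul_apply, ih, pow_succ]
    rfl

theorem exists_delta (F : Type) [Field F] [NumberField F] :
    ∃ δ : QB, δ ^ 2 = ((discr F : ℤ) : QB) ∧
      ∀ g : QB ≃ₐ[ℚ] QB, g δ = (((Equiv.Perm.sign (pm F g) : ℤˣ) : ℤ) : QB) * δ := by
  let b := integralBasis F
  have hcard : Fintype.card (Module.Free.ChooseBasisIndex ℤ (𝓞 F)) =
      Fintype.card (F →ₐ[ℚ] QB) := by
    rw [AlgHom.card, Module.finrank_eq_card_basis b]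
  let e : Module.Free.ChooseBasisIndex ℤ (𝓞 F) ≃ (F →ₐ[ℚ] QB) := Fintype.equivOfCardEq hcard
  let M := Algebra.embeddingsMatrixReindex ℚ QB b e
  refine ⟨M.det, ?_, fun g => ?_⟩
  · have h1 := Algebra.discr_eq_det_embeddingsMatrixReindex_pow_two ℚ QB b e
    rw [← coe_discr, map_intCast] at h1
    exact h1.symm
  · have h1 : g M.det = ((g : QB →+* QB).mapMatrix M).det := RingHom.map_det (g : QB →+* QB) M
    rw [h1]
    have h2 : (g : QB →+* QB).mapMatrix M = M.submatrix id (e.symm.permCongr (pm F g)) := by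
      ext i j
      change g (e j (b i)) = e (e.symm.permCongr (pm F g) j) (b i)
      rw [Equiv.permCongr_apply, Equiv.symm_symm, Equiv.apply_symm_apply]
      rfl
    rw [h2, Matrix.det_permute', Equiv.Perm.sign_permCongr]

section
variable {K L : Type} [Field K] [NumberField K] [Field L] [NumberField L] [Algebra K L]
  [IsGalois K L]
variable {ι : Type} [Fintype ι] (F : ι → Type) [∀ i, Field (F i)] [∀ i, NumberField (F i)]
  [∀ i, Algebra K (F i)] (f : ∀ i, F i →ₐ[K] L) (e : ι → ℤ)

include f in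
/-- the product of the discriminants is a square -/
theorem disc_rel (h : ∀ g : Gal(L/K), ∑ i, e i * fx (f i).fieldRange.fixingSubgroup g = 0) :
    ∃ q : ℚ, q ^ 2 = ∏ i, ((discr (F i) : ℤ) : ℚ) ^ e i := by
  have hδ := fun i => exists_delta (F i)
  choose δ hδ hg using hδ
  have hfix : ∀ g : QB ≃ₐ[ℚ] QB, g (∏ i, δ i ^ e i) = ∏ i, δ i ^ e i := by
    intro g
    have h1 : ∏ i, Equiv.Perm.sign (pm (F i) g) ^ e i = 1 := by
      refine sign_rel (fun i => (F i →ₐ[ℚ] QB)) (fun i => pm (F i) g) e fun k => ?_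
      rw [← hom_rel F f e h ((g ^ k : QB ≃ₐ[ℚ] QB) : QB →+* QB)]
      refine Finset.sum_congr rfl fun i _ => ?_
      congr 2
      refine Nat.card_congr ((RingHom.equivRatAlgHom (R := F i) (S := QB)).symm.subtypeEquiv ?_)
      intro τ
      constructor
      · intro h2 x
        have h3 := AlgHom.congr_fun h2 x
        rw [pm_pow] at h3
        exact h3
      · intro h2
        ext x
        rw [pm_pow]
        exact h2 x
    rw [map_prod]
    simp_rw [map_zpow₀, hg _ g, mul_zpow]
    rw [Finset.prod_mul_distrib]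
    have h2 : ∏ i, ((((Equiv.Perm.sign (pm (F i) g) : ℤˣ) : ℤ) : QB)) ^ e i = 1 := by
      have h3 : ∀ i, ((((Equiv.Perm.sign (pm (F i) g) : ℤˣ) : ℤ) : QB)) ^ e i =
          (((Equiv.Perm.sign (pm (F i) g) ^ e i : ℤˣ) : ℤ) : QB) := by
        intro i
        rcases Int.units_eq_one_or (Equiv.Perm.sign (pm (F i) g)) with h4 | h4
        · rw [h4]
          simp
        · rw [h4]
          rcases Int.even_or_odd (e i) with h5 | h5
          · rw [h5.neg_one_zpow]
            simp [h5.neg_one_zpow]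
          · rw [h5.neg_one_zpow]
            simp [h5.neg_one_zpow]
      simp_rw [h3]
      have h4 : ∏ i, (((Equiv.Perm.sign (pm (F i) g) ^ e i : ℤˣ) : ℤ) : QB) =
          (((∏ i, Equiv.Perm.sign (pm (F i) g) ^ e i : ℤˣ) : ℤ) : QB) := by
        rw [Units.coe_prod]
        push_cast
        rfl
      rw [h4, h1]
      simp
    rw [h2, one_mul]
  have hn := normalQB
  have hgal : IsGalois ℚ QB := ⟨⟩
  have hbot : ∏ i, δ i ^ e i ∈ (⊥ : IntermediateField ℚ QB) :=
    (InfiniteGalois.mem_bot_iff_fixed _).2 hfix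
  obtain ⟨q, hq⟩ := IntermediateField.mem_bot.1 hbot
  refine ⟨q, (algebraMap ℚ QB).injective ?_⟩
  rw [map_pow, hq, map_prod, ← Finset.prod_pow]
  refine Finset.prod_congr rfl fun i _ => ?_
  rw [map_zpow₀, map_intCast, ← hδ i, ← zpow_natCast, ← zpow_natCast, ← zpow_mul, ← zpow_mul,
    mul_comm]

end

end Pool.Agent.R386.HY
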