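import Pool.Agent.R386.HY.Rat
import Pool.Agent.R386.TC.Ord

/-!
# Central values and periods of families of extensions
-/

set_option autoImplicit false

namespace Pool.Agent.R386.HY

open NumberField IsDedekindDomain
open Pool.Agent.H341R2.EC
open Pool.Agent.R433.MD

open scoped Classical

section
variable {K L : Type} [Field K] [NumberField K] [Field L] [NumberField L] [Algebra K L]
  [IsGalois K L] {ι : Type} [Fintype ι] (Z : ι → Ext K) (f : ∀ i, (Z i).F →ₐ[K] L) (e : ι → ℤ)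

include f in
/-- periods of a family -/
theorem om_fam (h : ∀ g : Gal(L/K), ∑ i, e i * fx (f i).fieldRange.fixingSubgroup g = 0)
    {P c : InfinitePlace K → ℝ} (hP : ∀ v, P v ≠ 0) (hc : ∀ v, c v ≠ 0) :
    ∃ ρ : ℚ, ∏ i, om P c (Z i).F ^ e i = ρ := by
  obtain ⟨q, hq⟩ := disc_rel (fun i => (Z i).F) f e h
  have hp := per_rel (fun i => (Z i).F) f e h P c
  have hd : ∀ i, (discr (Z i).F : ℝ) ≠ 0 := fun i => by exact_mod_cast discr_ne_zero (Z i).F
  have hq' : (q : ℝ) ^ 2 = ∏ i, (discr (Z i).F : ℝ) ^ e i := by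
    have h1 := congrArg (fun x : ℚ => (x : ℝ)) hq
    push_cast at h1
    exact h1
  have hq0 : (q : ℝ) ≠ 0 := by
    intro h0
    rw [h0] at hq'
    have : ∏ i, (discr (Z i).F : ℝ) ^ e i ≠ 0 :=
      Finset.prod_ne_zero_iff.2 fun i _ => zpow_ne_zero _ (hd i)
    apply this
    rw [← hq']
    norm_num
  have hlq : 2 * Real.log |(q : ℝ)| = ∑ i, (e i : ℝ) * Real.log |(discr (Z i).F : ℝ)| := by
    have h1 := congrArg Real.log (congrArg abs hq')
    rw [abs_pow, Real.log_pow, Finset.abs_prod, Real.log_prod fun i _ =>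
      abs_ne_zero.2 (zpow_ne_zero _ (hd i))] at h1
    push_cast at h1
    rw [h1]
    refine Finset.sum_congr rfl fun i _ => ?_
    rw [abs_zpow, Real.log_zpow]
  have hlo : ∑ i, (e i : ℝ) * Real.log |om P c (Z i).F| = Real.log |(q : ℝ)| := by
    simp_rw [log_om hP hc, mul_add]
    rw [Finset.sum_add_distrib, hp, add_zero]
    have : ∀ i, (e i : ℝ) * ((1 / 2) * Real.log |(discr (Z i).F : ℝ)|) =
        (1 / 2) * ((e i : ℝ) * Real.log |(discr (Z i).F : ℝ)|) := fun i => by ring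
    simp_rw [this]
    rw [← Finset.mul_sum, ← hlq]
    ring
  have hprod0 : ∏ i, om P c (Z i).F ^ e i ≠ 0 :=
    Finset.prod_ne_zero_iff.2 fun i _ => zpow_ne_zero _ (om_ne hP hc (Z i).F)
  have h3 : Real.log |∏ i, om P c (Z i).F ^ e i| = Real.log |(q : ℝ)| := by
    rw [← hlo, Finset.abs_prod, Real.log_prod fun i _ =>
      abs_ne_zero.2 (zpow_ne_zero (e i) (om_ne hP hc (Z i).F))]
    refine Finset.sum_congr rfl fun i _ => ?_
    rw [abs_zpow, Real.log_zpow]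
  have h5 : |∏ i, om P c (Z i).F ^ e i| = |(q : ℝ)| :=
    Real.log_injOn_pos (abs_pos.2 hprod0) (abs_pos.2 hq0) h3
  rcases abs_eq_abs.1 h5 with h6 | h6
  · exact ⟨q, h6⟩
  · refine ⟨-q, ?_⟩
    rw [h6]
    push_cast
    ring

variable {E : WeierstrassCurve K}

/-- central values of a family -/
theorem val_fam (hE : E.IsElliptic)
    (h : ∀ g : Gal(L/K), ∑ i, e i * fx (f i).fieldRange.fixingSubgroup g = 0) {U : Set ℂ}
    (hU : IsPreconnected U) (hH : ∀ s : ℂ, 3 / 2 < s.re → s ∈ U) (h1 : (1 : ℂ) ∈ U)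
    (V : ∀ i, HeightOneSpectrum (𝓞 (Z i).F) → WeierstrassCurve (𝓞 (Z i).F))
    (hV : ∀ i w, IsMinAt (E.map (algebraMap K (Z i).F)) w (V i w))
    (Λ : ι → ℂ → ℂ) (hm : ∀ i, MeromorphicOn (Λ i) U) (ha : ∀ i, AnalyticAt ℂ (Λ i) 1)
    (hne : ∀ i, Λ i 1 ≠ 0) (hL : ∀ i (s : ℂ), 3 / 2 < s.re → Λ i s = LL (V i) s) :
    ∃ q : ℚ, q ≠ 0 ∧ ∏ i, Λ i 1 ^ e i = q := by
  obtain ⟨V0, hV0⟩ := exists_minimal E hE
  obtain ⟨R, q, hR, ⟨hRa, hq0, hR1⟩, hRL⟩ := L_rel_rat (K := K) (L := L) Z f e 0 (by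
      intro g
      rw [h g]
      rfl) E hE V0 hV0 V hV
  have hRU : MeromorphicOn R U := fun x _ => hR x trivial
  have h2 : (fun s => R s * ∏ i, Λ i s ^ e i) 1 = (fun _ : ℂ => (1 : ℂ)) 1 := by
    refine val_eq (f := fun s => R s * ∏ i, Λ i s ^ e i) (g := fun _ : ℂ => (1 : ℂ)) hU hH h1 ?_
      (MeromorphicOn.const 1) ?_ analyticAt_const fun s hs => ?_
    · refine hRU.fun_mul ?_
      apply MeromorphicOn.fun_prod
      intro i _
      exact (hm i).fun_zpow _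
    · refine hRa.fun_mul ?_
      apply Finset.analyticAt_fun_prod
      intro i _
      exact (ha i).fun_zpow (hne i)
    · have h3 := (hRL s hs).2
      rw [pow_zero] at h3
      have h5 : ∀ i, Λ i s ^ e i = LL (V i) s ^ e i := fun i => by rw [hL i s hs]
      simp_rw [h5]
      exact h3.symm
  refine ⟨q⁻¹, inv_ne_zero hq0, ?_⟩
  have h3 : R 1 * ∏ i, Λ i 1 ^ e i = 1 := h2
  rw [hR1] at h3
  rw [Rat.cast_inv]
  exact eq_inv_of_mul_eq_one_right h3

end

end Pool.Agent.R386.HY
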