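import Pool.Agent.R386.HY.Inf

/-!
# Fixed embeddings
-/

set_option autoImplicit false

namespace Pool.Agent.R386.HY

open NumberField
open Pool.Agent.R433.MD (fx fx_eq_emb emb)
open Pool.Agent.R333.BR (fx_card)
open Pool.Agent.R386.TC (exists_aut exists_ext')

section
variable {K L : Type} [Field K] [NumberField K] [Field L] [NumberField L] [Algebra K L]
  [IsGalois K L] {A : Type} [Field A] [IsAlgClosed A]

/-- fixed embeddings above a given one -/
theorem card_fix {F : Type} [Field F] [NumberField F] [Algebra K F] (f : F →ₐ[K] L)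
    {c : Gal(L/K)} {ι : L →+* A} {g : A →+* A} (hι : ∀ z, ι (c z) = g (ι z)) :
    Nat.card {τ : F →ₐ[K] L // ∀ x, c (τ x) = τ x} =
      Nat.card {τ : F →+* A // τ.comp (algebraMap K F) = ι.comp (algebraMap K L) ∧
        ∀ x, g (τ x) = τ x} := by
  classical
  let T : {τ : F →ₐ[K] L // ∀ x, c (τ x) = τ x} →
      {τ : F →+* A // τ.comp (algebraMap K F) = ι.comp (algebraMap K L) ∧ ∀ x, g (τ x) = τ x} :=
    fun τ => ⟨ι.comp (τ.1 : F →+* L), by
      ext x
      change ι (τ.1 (algebraMap K F x)) = ι (algebraMap K L x)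
      rw [AlgHom.commutes], fun x => by
      change g (ι (τ.1 x)) = ι (τ.1 x)
      rw [← hι, τ.2]⟩
  refine Nat.card_congr (Equiv.ofBijective T ⟨fun τ τ' h => ?_, fun ρ => ?_⟩)
  · apply Subtype.ext
    ext x
    apply ι.injective
    exact congrArg (fun t : {τ : F →+* A // τ.comp (algebraMap K F) = ι.comp (algebraMap K L) ∧
      ∀ x, g (τ x) = τ x} => t.1 x) h
  · letI : Algebra F L := f.toRingHom.toAlgebra
    haveI : IsScalarTower K F L := IsScalarTower.of_algebraMap_eq fun x => (f.commutes x).symm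
    haveI : Algebra.IsAlgebraic F L := Algebra.IsAlgebraic.tower_top (K := K) F
    obtain ⟨Φ, hΦ⟩ := exists_ext' (k := F) (N := L) ρ.1
    obtain ⟨σ, hσ⟩ := exists_aut (k := K) ι Φ (fun x => by
      rw [IsScalarTower.algebraMap_apply K F L, hΦ]
      have h1 := RingHom.congr_fun ρ.2.1 x
      have h2 : ρ.1 (algebraMap K F x) = ι (algebraMap K L x) := h1
      rw [h2, ← IsScalarTower.algebraMap_apply K F L])
    have h1 : ∀ x : F, ι (σ (f x)) = ρ.1 x := by
      intro x
      rw [← hσ]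
      exact hΦ x
    refine ⟨⟨(σ : L →ₐ[K] L).comp f, fun x => ?_⟩, ?_⟩
    · apply ι.injective
      rw [hι]
      change g (ι (σ (f x))) = ι (σ (f x))
      rw [h1, ρ.2.2]
    · apply Subtype.ext
      ext x
      exact h1 x

variable {ι : Type} [Fintype ι] (F : ι → Type) [∀ i, Field (F i)] [∀ i, NumberField (F i)]
  [∀ i, Algebra K (F i)] (f : ∀ i, F i →ₐ[K] L) (e : ι → ℤ)

include f in
/-- relations for the numbers of fixed embeddings -/
theorem fix_rel (h : ∀ g : Gal(L/K), ∑ i, e i * fx (f i).fieldRange.fixingSubgroup g = 0)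
    (κ : K →+* A) (g : A →+* A) :
    ∑ i, e i * (Nat.card {τ : F i →+* A // τ.comp (algebraMap K (F i)) = κ ∧
      ∀ x, g (τ x) = τ x} : ℤ) = 0 := by
  classical
  by_cases hκ : ∀ x, g (κ x) = κ x
  · obtain ⟨κ', hκ'⟩ := exists_ext' (k := K) (N := L) κ
    obtain ⟨c, hc⟩ := exists_aut (k := K) κ' (g.comp κ') (fun x => by
      change κ' (algebraMap K L x) = g (κ' (algebraMap K L x))
      rw [hκ', hκ])
    have e1 : κ = κ'.comp (algebraMap K L) := by
      ext x
      exact (hκ' x).symm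
    rw [← h c]
    refine Finset.sum_congr rfl fun i _ => ?_
    rw [fx_card (f i) c, card_fix (f i) (ι := κ') (g := g) (fun z => (hc z).symm), e1]
  · refine Finset.sum_eq_zero fun i _ => ?_
    have h1 : IsEmpty {τ : F i →+* A // τ.comp (algebraMap K (F i)) = κ ∧ ∀ x, g (τ x) = τ x} := by
      refine ⟨fun τ => hκ fun x => ?_⟩
      have h2 := τ.2.2 (algebraMap K (F i) x)
      have h3 : τ.1 (algebraMap K (F i) x) = κ x := RingHom.congr_fun τ.2.1 x
      rwa [h3] at h2
    rw [Nat.card_of_isEmpty]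
    simp

variable [CharZero A]

include f in
theorem hom_rel (h : ∀ g : Gal(L/K), ∑ i, e i * fx (f i).fieldRange.fixingSubgroup g = 0)
    (g : A →+* A) :
    ∑ i, e i * (Nat.card {τ : F i →+* A // ∀ x, g (τ x) = τ x} : ℤ) = 0 := by
  classical
  have h1 : ∀ i, (Nat.card {τ : F i →+* A // ∀ x, g (τ x) = τ x} : ℤ) =
      ∑ κ : K →+* A, (Nat.card {τ : F i →+* A // τ.comp (algebraMap K (F i)) = κ ∧
        ∀ x, g (τ x) = τ x} : ℤ) := by
    intro i
    rw [Nat.card_congr (Equiv.sigmaFiberEquiv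
      (fun τ : {τ : F i →+* A // ∀ x, g (τ x) = τ x} => τ.1.comp (algebraMap K (F i)))).symm,
      Nat.card_sigma]
    push_cast
    refine Finset.sum_congr rfl fun κ _ => ?_
    congr 1
    refine Nat.card_congr
      { toFun := fun τ => ⟨τ.1.1, τ.2, τ.1.2⟩
        invFun := fun τ => ⟨⟨τ.1, τ.2.2⟩, τ.2.1⟩
        left_inv := fun _ => rfl
        right_inv := fun _ => rfl }
  simp_rw [h1, Finset.mul_sum]
  rw [Finset.sum_comm]
  exact Finset.sum_eq_zero fun κ _ => fix_rel F f e h κ g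

end

end Pool.Agent.R386.HY
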