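import Mathlib

/-!
# A relation between permutation characters of the symmetric group of degree four
-/

set_option autoImplicit false
set_option maxRecDepth 20000

namespace Pool.Agent.R386.HY

open Equiv

/-- the three double transpositions -/
abbrev Y3 : Type := {τ : Perm (Fin 4) // τ * τ = 1 ∧ ∀ i, τ i ≠ i}

/-- the six subsets with two elements -/
abbrev Y6 : Type := {s : Finset (Fin 4) // s.card = 2}

theorem count4 (π : Perm (Fin 4)) :
    Fintype.card {i : Fin 4 // π i = i} + Fintype.card {τ : Y3 // π * τ.1 * π⁻¹ = τ.1} =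
      1 + Fintype.card {s : Y6 // s.1.map π.toEmbedding = s.1} := by
  revert π
  decide +kernel

theorem two_of_six (s : Y6) : ∃ τ : Y3, ∀ π : Perm (Fin 4), s.1.map π.toEmbedding = s.1 →
    π * τ.1 * π⁻¹ = τ.1 := by
  revert s
  decide +kernel

theorem cases3 (τ : Y3) : (τ.1 0 = 1 ∧ τ.1 1 = 0 ∧ τ.1 2 = 3 ∧ τ.1 3 = 2) ∨
    (τ.1 0 = 2 ∧ τ.1 1 = 3 ∧ τ.1 2 = 0 ∧ τ.1 3 = 1) ∨
    (τ.1 0 = 3 ∧ τ.1 1 = 2 ∧ τ.1 2 = 1 ∧ τ.1 3 = 0) := by
  revert τ
  decide +kernel

/-- the cube of the resolvent -/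
theorem cube_res {L : Type} [Field L] {a b c d b2 b4 b6 b8 : L} (h2 : b2 = -3 * (a + b + c + d))
    (h4 : b4 = a * b + a * c + a * d + b * c + b * d + c * d)
    (h6 : b6 = -(a * b * c + a * b * d + a * c * d + b * c * d)) (h8 : b8 = 3 * (a * b * c * d))
    (hr : 4 * b8 = b2 * b6 - b4 ^ 2) :
    (3 * (a * b + c * d) - b4) ^ 3 =
      -(-b2 ^ 2 * b8 - 8 * b4 ^ 3 - 27 * b6 ^ 2 + 9 * b2 * b4 * b6) := by
  subst h2 h4 h6 h8
  linear_combination 9 * ((a * b + c * d) - (a * b + a * c + a * d + b * c + b * d + c * d)) * hr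

/-- the roots are distinct -/
theorem ne_of_res {L : Type} [Field L] [CharZero L] {a b c d b2 b4 b6 b8 : L}
    (h2 : b2 = -3 * (a + b + c + d))
    (h4 : b4 = a * b + a * c + a * d + b * c + b * d + c * d)
    (h6 : b6 = -(a * b * c + a * b * d + a * c * d + b * c * d)) (h8 : b8 = 3 * (a * b * c * d))
    (hr : 4 * b8 = b2 * b6 - b4 ^ 2)
    (hΔ : -b2 ^ 2 * b8 - 8 * b4 ^ 3 - 27 * b6 ^ 2 + 9 * b2 * b4 * b6 ≠ 0) : a ≠ d := by
  intro had
  have hcube := cube_res h2 h4 h6 h8 hr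
  set w : L := 3 * (a * b + c * d) - b4 with hw
  set w' : L := 3 * (a * d + b * c) - b4 with hw'
  -- with `a = d` two of the three resolvents agree
  have e1 : 2 * w + w' = 0 := by
    rw [hw, hw', h4, had]
    ring
  have e2 : w * w + 2 * (w * w') = 0 := by
    rw [hw, hw', h4, had]
    rw [h2, h4, h6, h8, had] at hr
    linear_combination (-3) * hr
  have e3 : w ^ 2 = 0 := by
    have h3 : (3 : L) ≠ 0 := by norm_num
    have : 3 * w ^ 2 = 0 := by linear_combination 2 * w * e1 - e2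
    exact (mul_eq_zero.1 this).resolve_left h3
  have e4 : w = 0 := pow_eq_zero_iff (two_ne_zero) |>.1 e3
  rw [e4] at hcube
  apply hΔ
  have : (0 : L) ^ 3 = 0 := by norm_num
  rw [this] at hcube
  linear_combination hcube

end Pool.Agent.R386.HY
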