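import Pool.Agent.R386.TC.Real
import Pool.Agent.R333.BR.Fam

/-!
# Relations between the numbers of archimedean places
-/

set_option autoImplicit false

namespace Pool.Agent.R386.HY

open NumberField
open Pool.Agent.R433.MD (fx fx_eq_emb emb)
open Pool.Agent.R333.BR (fx_card)
open Pool.Agent.R386.TC (exists_aut exists_ext')

/-- the real embeddings are the real places -/
theorem card_real (F : Type) [Field F] [NumberField F] :
    Nat.card (F →+* ℝ) = InfinitePlace.nrRealPlaces F := by
  classical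
  rw [← InfinitePlace.card_real_embeddings, ← Nat.card_eq_fintype_card]
  refine Nat.card_congr (Equiv.ofBijective
    (fun τ : F →+* ℝ => (⟨Complex.ofRealHom.comp τ, ?_⟩ :
      {φ : F →+* ℂ // ComplexEmbedding.IsReal φ})) ⟨?_, ?_⟩)
  · rw [ComplexEmbedding.isReal_iff]
    ext x
    exact Complex.conj_ofReal _
  · intro τ τ' h
    have h1 : Complex.ofRealHom.comp τ = Complex.ofRealHom.comp τ' := congrArg Subtype.val h
    ext x
    exact Complex.ofReal_injective (RingHom.congr_fun h1 x)
  · rintro ⟨φ, hφ⟩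
    refine ⟨hφ.embedding, Subtype.ext ?_⟩
    ext x
    exact hφ.coe_embedding_apply x

/-- the number of archimedean places -/
theorem two_mul_card (F : Type) [Field F] [NumberField F] :
    2 * Nat.card (InfinitePlace F) = Nat.card (F →+* ℝ) + Module.finrank ℚ F := by
  classical
  rw [card_real, Nat.card_eq_fintype_card, InfinitePlace.card_eq_nrRealPlaces_add_nrComplexPlaces,
    ← InfinitePlace.card_add_two_mul_card_eq_rank]
  ring

section
variable {K L : Type} [Field K] [NumberField K] [Field L] [NumberField L] [Algebra K L]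
  [IsGalois K L]

/-- real embeddings above a real embedding -/
theorem card_over {F : Type} [Field F] [NumberField F] [Algebra K F] (f : F →ₐ[K] L)
    {c : Gal(L/K)} {ι : L →+* ℂ} (hι : ∀ z, ι (c z) = (starRingEnd ℂ) (ι z)) (φ : K →+* ℝ)
    (hφ : ∀ x : K, ι (algebraMap K L x) = (φ x : ℂ)) :
    Nat.card {τ : F →ₐ[K] L // ∀ x, c (τ x) = τ x} =
      Nat.card {τ : F →+* ℝ // τ.comp (algebraMap K F) = φ} := by
  classical
  have hreal : ∀ (τ : {τ : F →ₐ[K] L // ∀ x, c (τ x) = τ x}) (x : F),
      ((ι (τ.1 x)).re : ℂ) = ι (τ.1 x) := by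
    intro τ x
    have h1 := hι (τ.1 x)
    rw [τ.2] at h1
    exact Complex.conj_eq_iff_re.1 h1.symm
  let T : {τ : F →ₐ[K] L // ∀ x, c (τ x) = τ x} →
      {τ : F →+* ℝ // τ.comp (algebraMap K F) = φ} := fun τ =>
    ⟨{ toFun := fun x => (ι (τ.1 x)).re
       map_one' := by rw [map_one, map_one]; rfl
       map_zero' := by rw [map_zero, map_zero]; rfl
       map_mul' := fun x y => by
        apply Complex.ofReal_injective
        push_cast
        rw [hreal, hreal, hreal, map_mul, map_mul]
       map_add' := fun x y => by rw [map_add, map_add, Complex.add_re] }, by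
      ext x
      change (ι (τ.1 (algebraMap K F x))).re = φ x
      rw [AlgHom.commutes, hφ, Complex.ofReal_re]⟩
  refine Nat.card_congr (Equiv.ofBijective T ⟨fun τ τ' h => ?_, fun ρ => ?_⟩)
  · apply Subtype.ext
    ext x
    apply ι.injective
    rw [← hreal τ, ← hreal τ']
    congr 1
    have h1 := congrArg (fun t : {τ : F →+* ℝ // τ.comp (algebraMap K F) = φ} => t.1 x) h
    exact h1
  · -- extension of `ρ`
    letI : Algebra F L := f.toRingHom.toAlgebra
    haveI : IsScalarTower K F L := IsScalarTower.of_algebraMap_eq fun x => (f.commutes x).symm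
    haveI : Algebra.IsAlgebraic F L := Algebra.IsAlgebraic.tower_top (K := K) F
    obtain ⟨Φ, hΦ⟩ := exists_ext' (k := F) (N := L) (Complex.ofRealHom.comp ρ.1)
    obtain ⟨g, hg⟩ := exists_aut (k := K) ι Φ (fun x => by
      rw [hφ, IsScalarTower.algebraMap_apply K F L, hΦ]
      change _ = (((ρ.1.comp (algebraMap K F)) x : ℝ) : ℂ)
      rw [ρ.2])
    have h1 : ∀ x : F, ι (g (f x)) = (ρ.1 x : ℂ) := by
      intro x
      rw [← hg]
      exact hΦ x
    refine ⟨⟨(g : L →ₐ[K] L).comp f, fun x => ?_⟩, ?_⟩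
    · apply ι.injective
      rw [hι]
      change (starRingEnd ℂ) (ι (g (f x))) = ι (g (f x))
      rw [h1]
      exact Complex.conj_ofReal _
    · apply Subtype.ext
      ext x
      change (ι (g (f x))).re = ρ.1 x
      rw [h1, Complex.ofReal_re]

variable {ι : Type} [Fintype ι] (F : ι → Type) [∀ i, Field (F i)] [∀ i, NumberField (F i)]
  [∀ i, Algebra K (F i)] (f : ∀ i, F i →ₐ[K] L) (e : ι → ℤ)

omit [IsGalois K L] in
theorem finite_real (F : Type) [Field F] [NumberField F] : Finite (F →+* ℝ) := by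
  refine Finite.of_injective (fun τ : F →+* ℝ => (Complex.ofRealHom.comp τ : F →+* ℂ)) ?_
  intro τ τ' h
  ext x
  exact Complex.ofReal_injective (RingHom.congr_fun h x)

theorem real_rel (h : ∀ g : Gal(L/K), ∑ i, e i * fx (f i).fieldRange.fixingSubgroup g = 0) :
    ∑ i, e i * (Nat.card (F i →+* ℝ) : ℤ) = 0 := by
  classical
  have hfK : Finite (K →+* ℝ) := finite_real K
  have hfF : ∀ i, Finite (F i →+* ℝ) := fun i => finite_real (F i)
  let _ : Fintype (K →+* ℝ) := Fintype.ofFinite _
  have h1 : ∀ i, (Nat.card (F i →+* ℝ) : ℤ) =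
      ∑ φ : K →+* ℝ, (Nat.card {τ : F i →+* ℝ // τ.comp (algebraMap K (F i)) = φ} : ℤ) := by
    intro i
    rw [Nat.card_congr (Equiv.sigmaFiberEquiv
      (fun τ : F i →+* ℝ => τ.comp (algebraMap K (F i)))).symm, Nat.card_sigma]
    push_cast
    rfl
  simp_rw [h1, Finset.mul_sum]
  rw [Finset.sum_comm]
  refine Finset.sum_eq_zero fun φ _ => ?_
  obtain ⟨κ, hκ⟩ := exists_ext' (k := K) (N := L) (Complex.ofRealHom.comp φ)
  obtain ⟨c, hc⟩ := exists_aut (k := K) κ ((starRingEnd ℂ).comp κ) (fun x => by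
    change κ (algebraMap K L x) = (starRingEnd ℂ) (κ (algebraMap K L x))
    rw [hκ]
    exact (Complex.conj_ofReal _).symm)
  rw [← h c]
  refine Finset.sum_congr rfl fun i _ => ?_
  rw [fx_card (f i) c, card_over (f i) (fun z => (hc z).symm) φ hκ]

theorem fx_one {F : Type} [Field F] [NumberField F] [Algebra K F] (f : F →ₐ[K] L) :
    fx f.fieldRange.fixingSubgroup 1 = (Module.finrank K F : ℤ) := by
  classical
  have h1 : fx f.fieldRange.fixingSubgroup (1 : Gal(L/K)) =
      (Nat.card (Gal(L/K) ⧸ f.fieldRange.fixingSubgroup) : ℤ) := by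
    unfold fx
    congr 1
    refine Nat.card_congr (Equiv.subtypeUnivEquiv fun c => ?_)
    exact one_smul _ c
  rw [h1]
  congr 1
  have e1 : Module.finrank K F = Module.finrank K f.fieldRange :=
    (AlgEquiv.ofInjectiveField f).toLinearEquiv.finrank_eq
  have h2 := f.fieldRange.fixingSubgroup.card_eq_card_quotient_mul_card_subgroup
  have h3 := IsGalois.card_fixingSubgroup_eq_finrank f.fieldRange
  have h4 := IsGalois.card_aut_eq_finrank K L
  have h5 := Module.finrank_mul_finrank K f.fieldRange L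
  rw [h3, h4, ← h5] at h2
  have h6 : 0 < Module.finrank f.fieldRange L := Module.finrank_pos
  rw [e1]
  exact (Nat.eq_of_mul_eq_mul_right h6 h2).symm

/-- the numbers of archimedean places -/
theorem inf_rel (h : ∀ g : Gal(L/K), ∑ i, e i * fx (f i).fieldRange.fixingSubgroup g = 0) :
    ∑ i, e i * (Nat.card (InfinitePlace (F i)) : ℤ) = 0 := by
  classical
  have h1 := real_rel F f e h
  have h2 : ∑ i, e i * (Module.finrank ℚ (F i) : ℤ) = 0 := by
    have h3 : ∀ i, (Module.finrank ℚ (F i) : ℤ) =
        (Module.finrank ℚ K : ℤ) * fx (f i).fieldRange.fixingSubgroup 1 := by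
      intro i
      rw [fx_one]
      have := Module.finrank_mul_finrank ℚ K (F i)
      exact_mod_cast this.symm
    have h4 : ∑ i, e i * (Module.finrank ℚ (F i) : ℤ) = (Module.finrank ℚ K : ℤ) *
        ∑ i, e i * fx (f i).fieldRange.fixingSubgroup 1 := by
      rw [Finset.mul_sum]
      refine Finset.sum_congr rfl fun i _ => ?_
      rw [h3]
      ring
    rw [h4, h, mul_zero]
  have h3 : 2 * ∑ i, e i * (Nat.card (InfinitePlace (F i)) : ℤ) =
      ∑ i, e i * (Nat.card (F i →+* ℝ) : ℤ) + ∑ i, e i * (Module.finrank ℚ (F i) : ℤ) := by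
    rw [Finset.mul_sum, ← Finset.sum_add_distrib]
    refine Finset.sum_congr rfl fun i _ => ?_
    have := two_mul_card (F i)
    have h5 : (2 : ℤ) * (Nat.card (InfinitePlace (F i)) : ℤ) =
      (Nat.card (F i →+* ℝ) : ℤ) + (Module.finrank ℚ (F i) : ℤ) := by exact_mod_cast this
    calc 2 * (e i * (Nat.card (InfinitePlace (F i)) : ℤ)) =
        e i * (2 * (Nat.card (InfinitePlace (F i)) : ℤ)) := by ring
      _ = _ := by rw [h5]; ring
  rw [h1, h2, add_zero] at h3
  linarith

end

end Pool.Agent.R386.HY
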