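import Pool.Agent.R333.BR.LRel

/-! Relations between the `L`-series of an elliptic curve over number fields: the value of the
correcting factor at `s = 1` is rational. -/

set_option autoImplicit false

namespace Pool.Agent.R386.HY

open NumberField IsDedekindDomain Complex Filter Topology
open Pool.Agent.H921R2.TatePole (nm two_le_nm nm_summable)
open Pool.Agent.H341R2.EC
open Pool.Agent.H341R2 (finite_v card_v)
open Pool.Agent.R433.MD
open Pool.Agent.R333.BR (lf_one nh_congr)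

section
variable {K : Type} [Field K] [NumberField K]

/-- the local factors are rational at `s = 1` -/
theorem lf_rat (V : HeightOneSpectrum (𝓞 K) → WeierstrassCurve (𝓞 K))
    (v : HeightOneSpectrum (𝓞 K)) : ∃ q : ℚ, lf V 1 v = q := by
  classical
  have hq : ((nm v : ℕ) : ℂ) ≠ 0 := by exact_mod_cast (nm_pos v).ne'
  have h1 : ((nm v : ℕ) : ℂ) * lf V 1 v = (aff (red v (V v)) : ℂ) + dlt V v := by
    unfold lf trc
    have e1 : (1 : ℂ) - 2 * 1 = -1 := by norm_num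
    rw [e1, Complex.cpow_neg_one]
    push_cast
    field_simp
    ring
  have h2 : ∃ d : ℚ, (dlt V v : ℂ) = d := by
    unfold dlt
    split_ifs
    · exact ⟨0, by simp⟩
    · exact ⟨1, by simp⟩
  obtain ⟨d, hd⟩ := h2
  refine ⟨((aff (red v (V v)) : ℚ) + d) / (nm v : ℚ), ?_⟩
  push_cast
  rw [eq_div_iff hq, mul_comm, h1, hd]

/-- **Relations between L-series.** -/
theorem relation_rat {ι : Type} [Fintype ι] (F : ι → Type) [∀ i, Field (F i)]
    [∀ i, NumberField (F i)] [∀ i, Algebra K (F i)] (a b : ι → ℕ) {D : 𝓞 K} (hD0 : D ≠ 0)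
    (hD : ∀ (k : Type) [Field k] [Finite k] (φ : 𝓞 K →+* k), φ D ≠ 0 →
      ∑ i, a i * nh (F i) φ = ∑ i, b i * nh (F i) φ)
    (E : WeierstrassCurve K) (hE : E.IsElliptic)
    (V : ∀ i, HeightOneSpectrum (𝓞 (F i)) → WeierstrassCurve (𝓞 (F i)))
    (hV : ∀ i w, IsMinAt (E.map (algebraMap K (F i))) w (V i w)) :
    ∃ (R : ℂ → ℂ) (q : ℚ), MeromorphicOn R Set.univ ∧ (AnalyticAt ℂ R 1 ∧ q ≠ 0 ∧ R 1 = q) ∧
      ∀ s : ℂ, 3 / 2 < s.re → R s ≠ 0 ∧
      ∏ i, (∏' w, (lf (V i) s w)⁻¹) ^ a i = R s * ∏ i, (∏' w, (lf (V i) s w)⁻¹) ^ b i := by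
  classical
  obtain ⟨W, hW, hWΔ⟩ := exists_model E hE
  have h6 : (6 : 𝓞 K) ≠ 0 := by norm_num
  have hbad : {v : HeightOneSpectrum (𝓞 K) | 6 * W.Δ * D ∈ v.asIdeal}.Finite :=
    finite_mem (mul_ne_zero (mul_ne_zero h6 hWΔ) hD0)
  set S := hbad.toFinset with hS
  -- local products
  let A : (ι → ℕ) → ℂ → HeightOneSpectrum (𝓞 K) → ℂ := fun e s v =>
    ∏ i, (∏ w : Fib (F i) v, (lf (V i) s w.1)⁻¹) ^ e i
  have hprod : ∀ (e : ι → ℕ) (s : ℂ), 3 / 2 < s.re →
      HasProd (A e s) (∏ i, (∏' w, (lf (V i) s w)⁻¹) ^ e i) := by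
    intro e s hs
    refine hasProd_prod fun i _ => ?_
    have hEi : (E.map (algebraMap K (F i))).IsElliptic := inferInstance
    exact hasProd_pow (hasProd_fib (hasProd_lf _ hEi (V i) (hV i) hs).1) (e i)
  have hgood : ∀ (s : ℂ) (v : HeightOneSpectrum (𝓞 K)), v ∉ S → A a s v = A b s v := by
    intro s v hv
    have hv' : 6 * W.Δ * D ∉ v.asIdeal := fun h => hv (hbad.mem_toFinset.2 h)
    have hvD : D ∉ v.asIdeal := fun h => hv' (v.asIdeal.mul_mem_left _ h)
    have hvΔ : W.Δ ∉ v.asIdeal := fun h =>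
      hv' (v.asIdeal.mul_mem_right _ (v.asIdeal.mul_mem_left _ h))
    have hv6 : (6 : 𝓞 K) ∉ v.asIdeal := fun h =>
      hv' (v.asIdeal.mul_mem_right _ (v.asIdeal.mul_mem_right _ h))
    obtain ⟨g, hg⟩ := exists_count v W
    let G : ℕ → ℂ := fun n => (1 - (((nm v : ℤ) ^ n - (g n : ℤ) : ℤ) : ℂ) *
      ((nm v ^ n : ℕ) : ℂ) ^ (-s) + ((nm v ^ n : ℕ) : ℂ) ^ (1 - 2 * s))⁻¹
    have hA : ∀ e : ι → ℕ, A e s v = ∏ i, (∏ w : Fib (F i) v, G (fdeg w)) ^ e i := by
      intro e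
      refine Finset.prod_congr rfl fun i _ => ?_
      congr 1
      refine Finset.prod_congr rfl fun w _ => ?_
      rw [lf_good hW hv6 hvΔ hg (hV i) w s]
    rw [hA, hA]
    refine comb (fun i => Fib (F i) v) (fun i w => fdeg w) (fun i w => fdeg_pos w) a b ?_ G
    intro m hm
    obtain ⟨k, iF, iFin, iA, hk⟩ := exists_ext (𝓞 K ⧸ v.asIdeal) hm
    have h1 := hD k (base v k) (by
      rw [base, RingHom.comp_apply]
      intro h
      rw [map_eq_zero_iff _ (algebraMap (𝓞 K ⧸ v.asIdeal) k).injective,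
        Ideal.Quotient.eq_zero_iff_mem] at h
      exact hvD h)
    simp only [nh_eq, hk] at h1
    exact h1
  -- the finite parts
  have hmer : ∀ e : ι → ℕ, MeromorphicOn (fun s => ∏ v ∈ S, A e s v) Set.univ := by
    intro e
    apply MeromorphicOn.fun_prod
    intro v _
    change MeromorphicOn (fun s => ∏ i, (∏ w : Fib (F i) v, (lf (V i) s w.1)⁻¹) ^ e i) Set.univ
    apply MeromorphicOn.fun_prod
    intro i _
    apply MeromorphicOn.fun_pow
    apply MeromorphicOn.fun_prod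
    intro w _
    apply MeromorphicOn.fun_inv
    intro z _
    exact ((differentiable_lf (V i) w.1).analyticAt z).meromorphicAt
  have hne : ∀ (e : ι → ℕ) (s : ℂ), 3 / 2 < s.re → ∏ v ∈ S, A e s v ≠ 0 := by
    intro e s hs
    refine Finset.prod_ne_zero_iff.2 fun v _ => Finset.prod_ne_zero_iff.2 fun i _ => ?_
    refine pow_ne_zero _ (Finset.prod_ne_zero_iff.2 fun w _ => inv_ne_zero (lf_ne_zero _ hs _))
  have hne1 : ∀ (e : ι → ℕ), ∏ v ∈ S, A e 1 v ≠ 0 := by
    intro e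
    refine Finset.prod_ne_zero_iff.2 fun v _ => Finset.prod_ne_zero_iff.2 fun i _ => ?_
    refine pow_ne_zero _ (Finset.prod_ne_zero_iff.2 fun w _ => inv_ne_zero (lf_one _ _))
  have han : ∀ e : ι → ℕ, AnalyticAt ℂ (fun s => ∏ v ∈ S, A e s v) 1 := by
    intro e
    apply Finset.analyticAt_fun_prod
    intro v _
    change AnalyticAt ℂ (fun s => ∏ i, (∏ w : Fib (F i) v, (lf (V i) s w.1)⁻¹) ^ e i) 1
    apply Finset.analyticAt_fun_prod
    intro i _
    apply AnalyticAt.fun_pow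
    apply Finset.analyticAt_fun_prod
    intro w _
    exact ((differentiable_lf (V i) w.1).analyticAt 1).fun_inv (lf_one _ _)
  have hQ : ∀ i w, ∃ q : ℚ, lf (V i) 1 w = q := fun i w => lf_rat (V i) w
  choose Q hQ using hQ
  let B : (ι → ℕ) → HeightOneSpectrum (𝓞 K) → ℚ := fun e v =>
    ∏ i, (∏ w : Fib (F i) v, (Q i w.1)⁻¹) ^ e i
  have hB : ∀ e v, A e 1 v = (B e v : ℂ) := by
    intro e v
    change ∏ i, (∏ w : Fib (F i) v, (lf (V i) 1 w.1)⁻¹) ^ e i = _
    simp only [B, hQ]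
    push_cast
    rfl
  have hBS : ∀ e, ∏ v ∈ S, A e 1 v = ((∏ v ∈ S, B e v : ℚ) : ℂ) := by
    intro e
    rw [Finset.prod_congr rfl fun v _ => hB e v]
    push_cast
    rfl
  refine ⟨fun s => (∏ v ∈ S, A a s v) / (∏ v ∈ S, A b s v),
    (∏ v ∈ S, B a v) / (∏ v ∈ S, B b v), (hmer a).fun_div (hmer b),
    ⟨(han a).fun_div (han b) (hne1 b), ?_, ?_⟩,
    fun s hs => ⟨div_ne_zero (hne a s hs) (hne b s hs), ?_⟩⟩
  · refine div_ne_zero (fun h0 => hne1 a ?_) (fun h0 => hne1 b ?_)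
    · rw [hBS, h0, Rat.cast_zero]
    · rw [hBS, h0, Rat.cast_zero]
  · change (∏ v ∈ S, A a 1 v) / (∏ v ∈ S, A b 1 v) = _
    rw [hBS, hBS, ← Rat.cast_div]
  have h1 := compare (hprod a s hs) (hprod b s hs) S (hgood s)
  have h2 := hne b s hs
  rw [div_mul_eq_mul_div, eq_div_iff h2, h1, mul_comm]

variable {L : Type} [Field L] [NumberField L] [Algebra K L] [IsGalois K L]

/-- relations of permutation characters give relations of L-series -/
theorem L_rel_rat {ι : Type} [Fintype ι] (Z : ι → Ext K) (f : ∀ i, (Z i).F →ₐ[K] L) (e : ι → ℤ)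
    (m : ℕ) (h : ∀ g : Gal(L/K), ∑ i, e i * fx (f i).fieldRange.fixingSubgroup g = m)
    (E : WeierstrassCurve K) (hE : E.IsElliptic)
    (V0 : HeightOneSpectrum (𝓞 K) → WeierstrassCurve (𝓞 K)) (hV0 : ∀ v, IsMinAt E v (V0 v))
    (VZ : ∀ i, HeightOneSpectrum (𝓞 (Z i).F) → WeierstrassCurve (𝓞 (Z i).F))
    (hVZ : ∀ i w, IsMinAt (E.map (algebraMap K (Z i).F)) w (VZ i w)) :
    ∃ (R : ℂ → ℂ) (q : ℚ), MeromorphicOn R Set.univ ∧ (AnalyticAt ℂ R 1 ∧ q ≠ 0 ∧ R 1 = q) ∧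
      ∀ s : ℂ, 3 / 2 < s.re → R s ≠ 0 ∧ LL V0 s ^ m = R s * ∏ i, LL (VZ i) s ^ e i := by
  classical
  obtain ⟨D, hD0, hD⟩ := frob_count K L
  let X : Option ι → Ext K := fun i =>
    match i with
    | none => Ext.self K
    | some i => Z i
  let a : Option ι → ℕ := fun i =>
    match i with
    | none => 0
    | some i => (e i).toNat
  let b : Option ι → ℕ := fun i =>
    match i with
    | none => m
    | some i => (-e i).toNat
  let V : ∀ i, HeightOneSpectrum (𝓞 (X i).F) → WeierstrassCurve (𝓞 (X i).F) := fun i =>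
    match i with
    | none => V0
    | some i => VZ i
  have hV : ∀ i w, IsMinAt (E.map (algebraMap K (X i).F)) w (V i w) := by
    rintro (_ | i)
    · intro w
      have e : E.map (algebraMap K (Ext.self K).F) = E := E.map_id
      change IsMinAt (E.map (algebraMap K (Ext.self K).F)) w (V0 w)
      rw [e]
      exact hV0 w
    · exact hVZ i
  obtain ⟨R, q, hR, ⟨hRa, hq0, hR1⟩, hRL⟩ := relation_rat (fun i => (X i).F) a b hD0 (by
    intro k _ _ φ hφ
    obtain ⟨g, hg⟩ := hD k φ hφ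
    simp only [Fintype.sum_option]
    have h2 := (nh_self K φ).2
    have h3 : nh (X none).F φ = 1 := h2
    have h4 : ∀ i : ι, nh (X (some i)).F φ =
        Nat.card {c : Gal(L/K) ⧸ (f i).fieldRange.fixingSubgroup // g • c = c} := fun i => by
      rw [← hg (f i).fieldRange]
      exact nh_congr (AlgEquiv.ofInjectiveField (f i)) φ
    simp only [a, b, zero_add, h3, mul_one, h4]
    have h5 := h g
    have h6 : ((∑ i, (e i).toNat * Nat.card {c : Gal(L/K) ⧸ (f i).fieldRange.fixingSubgroup //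
        g • c = c} : ℕ) : ℤ) = ((m + ∑ i, (-e i).toNat *
        Nat.card {c : Gal(L/K) ⧸ (f i).fieldRange.fixingSubgroup // g • c = c} : ℕ) : ℤ) := by
      push_cast
      rw [← h5, ← Finset.sum_add_distrib]
      refine Finset.sum_congr rfl fun i _ => ?_
      have h7 := Int.toNat_sub_toNat_neg (e i)
      rw [fx]
      linear_combination (Nat.card {c : Gal(L/K) ⧸ (f i).fieldRange.fixingSubgroup //
        g • c = c} : ℤ) * h7
    exact_mod_cast h6) E hE V hV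
  have hR1' : R 1 ≠ 0 := by
    rw [hR1]
    exact_mod_cast hq0
  refine ⟨fun s => (R s)⁻¹, q⁻¹, hR.fun_inv, ⟨hRa.fun_inv hR1', inv_ne_zero hq0, ?_⟩,
    fun s hs => ?_⟩
  · change (R 1)⁻¹ = _
    rw [hR1, Rat.cast_inv]
  obtain ⟨h1, h2⟩ := hRL s hs
  refine ⟨inv_ne_zero h1, ?_⟩
  simp only [Fintype.prod_option] at h2
  have h3 : LL V0 s ^ 0 * ∏ i, LL (VZ i) s ^ (e i).toNat =
      R s * (LL V0 s ^ m * ∏ i, LL (VZ i) s ^ (-e i).toNat) := h2
  have hne : ∀ i, LL (VZ i) s ≠ 0 := fun i =>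
    LL_ne_zero inferInstance (hVZ i) hs
  rw [pow_zero, one_mul] at h3
  have h4 : ∏ i, LL (VZ i) s ^ e i =
      (∏ i, LL (VZ i) s ^ (e i).toNat) / ∏ i, LL (VZ i) s ^ (-e i).toNat := by
    rw [← Finset.prod_div_distrib]
    refine Finset.prod_congr rfl fun i _ => ?_
    conv_lhs => rw [← Int.toNat_sub_toNat_neg (e i)]
    rw [zpow_sub₀ (hne _), zpow_natCast, zpow_natCast]
  have h5 : ∏ i, LL (VZ i) s ^ (-e i).toNat ≠ 0 :=
    Finset.prod_ne_zero_iff.2 fun i _ => pow_ne_zero _ (hne _)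
  rw [h4, h3]
  field_simp

end

end Pool.Agent.R386.HY
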