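import Pool.Agent.R386.HY.Conj
import Pool.Agent.R333.BR.Rank
import Pool.Agent.R333.BR.LRel

/-!
# Relations between the numbers of homomorphisms to finite fields, at all primes
-/

set_option autoImplicit false

namespace Pool.Agent.R386.HY

open NumberField IsDedekindDomain Polynomial
open Pool.Agent.R433.MD
open Pool.Agent.R333.BR (sum_fx nh_congr)

/-- transitive actions -/
theorem card_pairs {O H : Type} [Group H] (act : O → H → O) (h1 : ∀ o, act o 1 = o)
    (hm : ∀ o a b, act (act o a) b = act o (a * b)) (o0 : O) (ht : ∀ o, ∃ a, act o0 a = o)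
    (f : O → O) : Nat.card {p : O × H // act p.1 p.2 = f p.1} = Nat.card H := by
  choose a ha using ht
  have hinv : ∀ o, act o (a o)⁻¹ = o0 := by
    intro o
    conv_lhs => rw [← ha o]
    rw [hm, ha, mul_inv_cancel, h1]
  refine Nat.card_congr
    { toFun := fun p => a p.1.1 * p.1.2 * (a (f p.1.1))⁻¹ * a p.1.1
      invFun := fun h => ⟨(act o0 h, (a (act o0 h))⁻¹ * (h * (a (act o0 h))⁻¹) *
        a (f (act o0 h))), ?_⟩
      left_inv := ?_
      right_inv := ?_ }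
  · change act (act o0 h) ((a (act o0 h))⁻¹ * (h * (a (act o0 h))⁻¹) * a (f (act o0 h))) =
      f (act o0 h)
    rw [← hm, ← hm, hinv, ← hm, hinv, ha]
  · rintro ⟨⟨o, h⟩, hp⟩
    have hp' : act o h = f o := hp
    have e1 : act o0 (a o * h * (a (f o))⁻¹ * a o) = o := by
      rw [← hm, ← hm, ← hm, ha, hp', hinv, ha]
    apply Subtype.ext
    refine Prod.ext e1 ?_
    change (a (act o0 (a o * h * (a (f o))⁻¹ * a o)))⁻¹ * (a o * h * (a (f o))⁻¹ * a o *
      (a (act o0 (a o * h * (a (f o))⁻¹ * a o)))⁻¹) * a (f (act o0 (a o * h * (a (f o))⁻¹ * a o))) = h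
    rw [e1]
    group
  · intro h
    change a (act o0 h) * ((a (act o0 h))⁻¹ * (h * (a (act o0 h))⁻¹) * a (f (act o0 h))) *
      (a (f (act o0 h)))⁻¹ * a (act o0 h) = h
    group

section
variable {K L : Type} [Field K] [NumberField K] [Field L] [NumberField L] [Algebra K L]

section count
variable {Ω : Type} [Field Ω] (φ : 𝓞 K →+* Ω) (Fr : Ω →+* Ω)

/-- the number of homomorphisms on which `g` acts as `Fr` -/
noncomputable def TT (g : Gal(L/K)) : ℕ := Nat.card {Ψ : Over L φ // tw Ψ.1 g = Fr.comp Ψ.1}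

theorem TT_conj (x g : Gal(L/K)) : TT φ Fr (x * g * x⁻¹) = TT φ Fr g := by
  refine Nat.card_congr
    { toFun := fun Ψ => ⟨⟨tw Ψ.1.1 x, (tw_below _ _).trans Ψ.1.2⟩, ?_⟩
      invFun := fun Ψ => ⟨⟨tw Ψ.1.1 x⁻¹, (tw_below _ _).trans Ψ.1.2⟩, ?_⟩
      left_inv := fun Ψ => ?_
      right_inv := fun Ψ => ?_ }
  · change tw (tw Ψ.1.1 x) g = Fr.comp (tw Ψ.1.1 x)
    have h1 := congrArg (fun Φ => tw Φ x) Ψ.2
    simp only [tw_tw] at h1
    rw [tw_tw]
    have e : x * g * x⁻¹ * x = x * g := by group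
    rw [e] at h1
    exact h1
  · change tw (tw Ψ.1.1 x⁻¹) (x * g * x⁻¹) = Fr.comp (tw Ψ.1.1 x⁻¹)
    have h1 := congrArg (fun Φ => tw Φ x⁻¹) Ψ.2
    simp only [tw_tw] at h1
    rw [tw_tw]
    have e : x⁻¹ * (x * g * x⁻¹) = g * x⁻¹ := by group
    rw [e]
    exact h1
  · apply Subtype.ext
    apply Subtype.ext
    change tw (tw Ψ.1.1 x) x⁻¹ = Ψ.1.1
    rw [tw_tw, mul_inv_cancel]
    ext y
    rw [tw_apply, one_smul]
  · apply Subtype.ext
    apply Subtype.ext
    change tw (tw Ψ.1.1 x⁻¹) x = Ψ.1.1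
    rw [tw_tw, inv_mul_cancel]
    ext y
    rw [tw_apply, one_smul]

variable [IsGalois K L] [IsAlgClosed Ω]

theorem sum_TT (hφ : RingHom.ker φ ≠ ⊥) (M : IntermediateField K L) :
    ∑ᶠ h : M.fixingSubgroup, TT φ Fr (h : Gal(L/K)) =
      Nat.card {ψ : Over M φ // Fr.comp ψ.1 = ψ.1} * Nat.card M.fixingSubgroup := by
  classical
  let _ : Fintype M.fixingSubgroup := Fintype.ofFinite _
  have hbelow : (algebraMap (𝓞 M) (𝓞 L)).comp (algebraMap (𝓞 K) (𝓞 M)) =
      algebraMap (𝓞 K) (𝓞 L) := (IsScalarTower.algebraMap_eq (𝓞 K) (𝓞 M) (𝓞 L)).symm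
  have hker : ∀ Ψ : Over L φ, RingHom.ker Ψ.1 ≠ ⊥ := by
    intro Ψ h
    apply hφ
    rw [← Ψ.2, ← RingHom.comap_ker, h]
    exact Ideal.comap_bot_of_injective _ (RingOfIntegers.algebraMap.injective K L)
  -- finiteness
  have hfinL : Finite (Over L φ) := by
    obtain ⟨Ψ0, hΨ0⟩ := exists_extend (F := K) (L := L) φ
    refine Finite.of_surjective (fun σ : Gal(L/K) => (⟨tw Ψ0 σ, (tw_below _ _).trans hΨ0⟩ :
      Over L φ)) fun Ψ => ?_
    obtain ⟨σ, hσ⟩ := conj_unif (F := K) (Ψ := Ψ0) (Ψ' := Ψ.1) (hΨ0.trans Ψ.2.symm)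
      (hker ⟨Ψ0, hΨ0⟩)
    refine ⟨σ, Subtype.ext ?_⟩
    ext x
    rw [tw_apply, hσ]
  let res : Over L φ → Over M φ := fun Ψ => ⟨Ψ.1.comp (algebraMap (𝓞 M) (𝓞 L)), by
    rw [RingHom.comp_assoc, hbelow, Ψ.2]⟩
  have hres : Function.Surjective res := by
    intro ψ
    obtain ⟨Ψ, hΨ⟩ := exists_extend (F := M) (L := L) ψ.1
    refine ⟨⟨Ψ, ?_⟩, Subtype.ext hΨ⟩
    rw [← hbelow, ← RingHom.comp_assoc, hΨ, ψ.2]
  have hfinM : Finite (Over M φ) := Finite.of_surjective res hres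
  have htwres : ∀ (Ψ : 𝓞 L →+* Ω) (h : M.fixingSubgroup),
      (tw Ψ (h : Gal(L/K))).comp (algebraMap (𝓞 M) (𝓞 L)) = Ψ.comp (algebraMap (𝓞 M) (𝓞 L)) := by
    intro Ψ h
    ext x
    rw [RingHom.comp_apply, RingHom.comp_apply, tw_apply, smul_fixed M h.2]
  rw [finsum_eq_sum_of_fintype]
  -- the pairs
  let S := {ψ : Over M φ // Fr.comp ψ.1 = ψ.1}
  let _ : Fintype S := Fintype.ofFinite _
  let P := {p : Over L φ × M.fixingSubgroup // tw p.1.1 (p.2 : Gal(L/K)) = Fr.comp p.1.1}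
  have hP1 : Nat.card P = ∑ h : M.fixingSubgroup, TT φ Fr (h : Gal(L/K)) := by
    have e1 : P ≃ (h : M.fixingSubgroup) ×
        {Ψ : Over L φ // tw Ψ.1 (h : Gal(L/K)) = Fr.comp Ψ.1} :=
      { toFun := fun p => ⟨p.1.2, ⟨p.1.1, p.2⟩⟩
        invFun := fun p => ⟨(p.2.1, p.1), p.2.2⟩
        left_inv := fun _ => rfl
        right_inv := fun _ => rfl }
    rw [Nat.card_congr e1, Nat.card_sigma]
    rfl
  have hres2 : ∀ p : P, Fr.comp (res p.1.1).1 = (res p.1.1).1 := by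
    intro p
    have h1 := congrArg (fun Φ : 𝓞 L →+* Ω => Φ.comp (algebraMap (𝓞 M) (𝓞 L))) p.2
    simp only [htwres] at h1
    exact h1.symm
  let r : P → S := fun p => ⟨res p.1.1, hres2 p⟩
  rw [← hP1, Nat.card_congr (Equiv.sigmaFiberEquiv r).symm, Nat.card_sigma]
  have hfib : ∀ ψ : S, Nat.card {p : P // r p = ψ} = Nat.card M.fixingSubgroup := by
    intro ψ
    let O := {Ψ : Over L φ // res Ψ = ψ.1}
    obtain ⟨Ψ0, hΨ0⟩ := hres ψ.1
    let act : O → M.fixingSubgroup → O := fun Ψ h =>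
      ⟨⟨tw Ψ.1.1 (h : Gal(L/K)), (tw_below _ _).trans Ψ.1.2⟩,
        (Subtype.ext (htwres Ψ.1.1 h) : _ = res Ψ.1).trans Ψ.2⟩
    have hFrφ : Fr.comp φ = φ := by
      rw [← ψ.1.2, ← RingHom.comp_assoc, ψ.2]
    let f : O → O := fun Ψ => ⟨⟨Fr.comp Ψ.1.1,
      (RingHom.comp_assoc _ _ _).trans ((congrArg Fr.comp Ψ.1.2).trans hFrφ)⟩, by
      apply Subtype.ext
      change (Fr.comp Ψ.1.1).comp (algebraMap (𝓞 M) (𝓞 L)) = ψ.1.1
      rw [RingHom.comp_assoc]
      have h2 : Ψ.1.1.comp (algebraMap (𝓞 M) (𝓞 L)) = ψ.1.1 := congrArg Subtype.val Ψ.2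
      rw [h2, ψ.2]⟩
    rw [← card_pairs act (fun Ψ => by
        apply Subtype.ext
        apply Subtype.ext
        ext x
        change Ψ.1.1 ((1 : Gal(L/K)) • x) = Ψ.1.1 x
        rw [one_smul]) (fun Ψ a b => by
        apply Subtype.ext
        apply Subtype.ext
        change tw (tw Ψ.1.1 (a : Gal(L/K))) (b : Gal(L/K)) =
          tw Ψ.1.1 ((a * b : M.fixingSubgroup) : Gal(L/K))
        rw [tw_tw]
        rfl) ⟨Ψ0, hΨ0⟩ (fun Ψ => by
        have h1 : Ψ0.1.comp (algebraMap (𝓞 M) (𝓞 L)) = Ψ.1.1.comp (algebraMap (𝓞 M) (𝓞 L)) :=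
          congrArg Subtype.val (hΨ0.trans Ψ.2.symm)
        obtain ⟨σ, hσ⟩ := conj_unif (F := M) h1 (hker Ψ0)
        refine ⟨M.fixingSubgroupEquiv.symm σ, ?_⟩
        apply Subtype.ext
        apply Subtype.ext
        ext x
        rw [hσ]
        rfl) f]
    refine Nat.card_congr
      { toFun := fun p => ⟨(⟨p.1.1.1, congrArg Subtype.val p.2⟩, p.1.1.2),
          Subtype.ext (Subtype.ext p.1.2)⟩
        invFun := fun q => ⟨⟨(q.1.1.1, q.1.2),
          congrArg (fun z : O => z.1.1) q.2⟩, Subtype.ext q.1.1.2⟩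
        left_inv := fun _ => rfl
        right_inv := fun _ => rfl }
  rw [Finset.sum_congr rfl fun ψ _ => hfib ψ, Finset.sum_const, Finset.card_univ,
    ← Nat.card_eq_fintype_card]
  rfl

end count

variable [IsGalois K L]

/-- homomorphisms to a finite field -/
theorem nh_stable {M : Type} [Field M] [NumberField M] [Algebra K M] {k : Type} [Field k] [Fintype k]
    (φ : 𝓞 K →+* k) :
    nh M φ = Nat.card {ψ : Over M ((algebraMap k (AlgebraicClosure k)).comp φ) //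
      ((FiniteField.frobeniusAlgHom k (AlgebraicClosure k)).toRingHom).comp ψ.1 = ψ.1} := by
  set Ω := AlgebraicClosure k
  let Fr : Ω →+* Ω := (FiniteField.frobeniusAlgHom k Ω).toRingHom
  have hFr : ∀ x : Ω, Fr x = x ^ Fintype.card k := fun x => rfl
  have hfix : ∀ x : Ω, Fr x = x ↔ x ∈ Set.range (algebraMap k Ω) := by
    intro x
    rw [hFr]
    constructor
    · intro hx
      have h1 : x ∈ ((X ^ Fintype.card k - X : k[X]).map (algebraMap k Ω)).roots := by
        rw [mem_roots', Polynomial.map_sub, Polynomial.map_pow, map_X]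
        refine ⟨FiniteField.X_pow_card_sub_X_ne_zero Ω Fintype.one_lt_card, ?_⟩
        rw [IsRoot.def, eval_sub, eval_pow, eval_X, hx, sub_self]
      have h2 : ((X ^ Fintype.card k - X : k[X]).map (algebraMap k Ω)).roots =
          (X ^ Fintype.card k - X : k[X]).roots.map (algebraMap k Ω) := by
        refine (roots_map_of_injective_of_card_eq_natDegree (algebraMap k Ω).injective ?_).symm
        rw [FiniteField.roots_X_pow_card_sub_X, Finset.card_val, Finset.card_univ,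
          FiniteField.X_pow_card_sub_X_natDegree_eq k Fintype.one_lt_card]
      rw [h2, Multiset.mem_map] at h1
      obtain ⟨y, -, hy⟩ := h1
      exact ⟨y, hy⟩
    · rintro ⟨y, rfl⟩
      rw [← map_pow, FiniteField.pow_card]
  let e : k ≃+* (algebraMap k Ω).range := RingEquiv.ofBijective (algebraMap k Ω).rangeRestrict
      ⟨fun a b hab => (algebraMap k Ω).injective (congrArg Subtype.val hab),
        (algebraMap k Ω).rangeRestrict_surjective⟩
  refine Nat.card_congr (Equiv.ofBijective (fun ψ => ⟨⟨(algebraMap k Ω).comp ψ.1, by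
      rw [RingHom.comp_assoc, ψ.2]⟩, by
      ext x
      exact (hfix _).2 ⟨ψ.1 x, rfl⟩⟩) ⟨?_, ?_⟩)
  · intro ψ ψ' h
    have h1 : (algebraMap k Ω).comp ψ.1 = (algebraMap k Ω).comp ψ'.1 :=
      congrArg (fun z => z.1.1) h
    apply Subtype.ext
    ext x
    exact (algebraMap k Ω).injective (RingHom.congr_fun h1 x)
  · rintro ⟨⟨ψ', hψ'⟩, hst⟩
    have h2 : ∀ x, ψ' x ∈ (algebraMap k Ω).range := fun x => (hfix _).1 (RingHom.congr_fun hst x)
    let ψ : 𝓞 M →+* k := e.symm.toRingHom.comp (ψ'.codRestrict _ h2)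
    have h4 : (algebraMap k Ω).comp ψ = ψ' := by
      ext x
      have h5 : e (ψ x) = ⟨ψ' x, h2 x⟩ := e.apply_symm_apply _
      exact congrArg Subtype.val h5
    have h6 : ψ.comp (algebraMap (𝓞 K) (𝓞 M)) = φ := by
      ext x
      apply (algebraMap k Ω).injective
      have h7 : (algebraMap k Ω).comp ψ (algebraMap (𝓞 K) (𝓞 M) x) =
          ψ' (algebraMap (𝓞 K) (𝓞 M) x) := by rw [h4]
      exact h7.trans (RingHom.congr_fun hψ' x)
    exact ⟨⟨ψ, h6⟩, Subtype.ext (Subtype.ext h4)⟩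

variable {ι : Type} [Fintype ι] (F : ι → Type) [∀ i, Field (F i)] [∀ i, NumberField (F i)]
  [∀ i, Algebra K (F i)] (f : ∀ i, F i →ₐ[K] L) (e : ι → ℤ)

/-- **relations at all primes** -/
theorem nh_rel (h : ∀ g : Gal(L/K), ∑ i, e i * fx (f i).fieldRange.fixingSubgroup g = 0)
    {k : Type} [Field k] [Finite k] (φ : 𝓞 K →+* k) (hφ : RingHom.ker φ ≠ ⊥) :
    ∑ i, e i * (nh (F i) φ : ℤ) = 0 := by
  classical
  let _ : Fintype k := Fintype.ofFinite k
  let Ω := AlgebraicClosure k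
  let φ' : 𝓞 K →+* Ω := (algebraMap k Ω).comp φ
  have hφ' : RingHom.ker φ' ≠ ⊥ := by
    intro h1
    apply hφ
    rw [← h1]
    ext x
    rw [RingHom.mem_ker, RingHom.mem_ker]
    exact (map_eq_zero_iff _ (algebraMap k Ω).injective).symm
  let Fr : Ω →+* Ω := (FiniteField.frobeniusAlgHom k Ω).toRingHom
  let _ : Fintype Gal(L/K) := Fintype.ofFinite _
  have hG : (Nat.card Gal(L/K) : ℚ) ≠ 0 := by exact_mod_cast Nat.card_pos.ne'
  have key : ∀ i, ∑ g : Gal(L/K), (fx (f i).fieldRange.fixingSubgroup g : ℚ) *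
      (TT (L := L) φ' Fr g : ℚ) = (Nat.card Gal(L/K) : ℚ) * (nh (F i) φ : ℚ) := by
    intro i
    rw [sum_fx (f i).fieldRange.fixingSubgroup (fun g => (TT (L := L) φ' Fr g : ℚ))
      (fun x g => by simp only [TT_conj φ' Fr x g])]
    congr 1
    have h1 := sum_TT (L := L) φ' Fr hφ' (f i).fieldRange
    let _ : Fintype (f i).fieldRange.fixingSubgroup := Fintype.ofFinite _
    rw [finsum_eq_sum_of_fintype] at h1 ⊢
    have h2 : (∑ x : (f i).fieldRange.fixingSubgroup, (TT (L := L) φ' Fr (x : Gal(L/K)) : ℚ)) =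
        ((∑ x : (f i).fieldRange.fixingSubgroup, TT (L := L) φ' Fr (x : Gal(L/K)) : ℕ) : ℚ) := by
      push_cast
      rfl
    have h3 : nh (F i) φ = nh (f i).fieldRange φ := nh_congr (AlgEquiv.ofInjectiveField (f i)) φ
    have h4 := nh_stable (M := (f i).fieldRange) φ
    have hH : (Nat.card (f i).fieldRange.fixingSubgroup : ℚ) ≠ 0 := by
      exact_mod_cast Nat.card_pos.ne'
    have h5 : (nh (F i) φ : ℚ) = (Nat.card {ψ : Over (f i).fieldRange φ' // Fr.comp ψ.1 = ψ.1} : ℚ) := by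
      rw [h3, h4]
    rw [h2, h1, h5]
    push_cast
    field_simp
  have h5 : (Nat.card Gal(L/K) : ℚ) * ∑ i, (e i : ℚ) * (nh (F i) φ : ℚ) = 0 := by
    calc (Nat.card Gal(L/K) : ℚ) * ∑ i, (e i : ℚ) * (nh (F i) φ : ℚ)
        = ∑ i, (e i : ℚ) * ∑ g : Gal(L/K), (fx (f i).fieldRange.fixingSubgroup g : ℚ) *
            (TT (L := L) φ' Fr g : ℚ) := by
          rw [Finset.mul_sum]
          refine Finset.sum_congr rfl fun i _ => ?_
          rw [key]
          ring
      _ = ∑ g : Gal(L/K), (∑ i, (e i : ℚ) * fx (f i).fieldRange.fixingSubgroup g) *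
            (TT (L := L) φ' Fr g : ℚ) := by
          simp_rw [Finset.sum_mul, Finset.mul_sum, mul_assoc]
          exact Finset.sum_comm
      _ = 0 := by
          refine Finset.sum_eq_zero fun g _ => ?_
          have h6 : ∑ i, (e i : ℚ) * (fx (f i).fieldRange.fixingSubgroup g : ℚ) = 0 := by
            exact_mod_cast h g
          rw [h6, zero_mul]
  have h6 := (mul_eq_zero.1 h5).resolve_left hG
  exact_mod_cast h6

end

end Pool.Agent.R386.HY
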