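import Pool.Agent.R386.HY.Split
import Pool.Agent.R386.HY.Inf
import Pool.Agent.R333.BR.Pts
import Pool.Agent.R433.MD.GalRel

/-!
# Parity and relations between permutation characters
-/

set_option autoImplicit false

namespace Pool.Agent.R386.HY

open NumberField IsDedekindDomain
open Pool.Agent.R433.MD
open Pool.Agent.R333.BR (rank_rel fx_card)

section
variable {K L : Type} [Field K] [NumberField K] [Field L] [NumberField L] [Algebra K L]
  [IsGalois K L]

/-- from relations among families to combinations of intermediate fields -/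
theorem from_rel (a : Ext K → ℤ)
    (ha : ∀ (ι : Type) [Fintype ι] (Z : ι → Ext K) (_ : ∀ i, (Z i).F →ₐ[K] L) (e : ι → ℤ)
      (f : ∀ i, (Z i).F →ₐ[K] L),
      (∀ g : Gal(L/K), ∑ i, e i * fx (f i).fieldRange.fixingSubgroup g = 0) →
        ∑ i, e i * a (Z i) = 0)
    (S : Finset (IntermediateField K L)) (n : IntermediateField K L → ℤ) (m : ℤ)
    (h : ∀ g : Gal(L/K), ∑ F ∈ S, n F * fx F.fixingSubgroup g = m) :
    m * a (Ext.self K) = ∑ F ∈ S, n F * a ⟨F⟩ := by
  classical
  let Z : Option S → Ext K := fun i => match i with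
    | none => Ext.self K
    | some F => ⟨F.1⟩
  let e : Option S → ℤ := fun i => match i with
    | none => -m
    | some F => n F.1
  let f : ∀ i, (Z i).F →ₐ[K] L := fun i => match i with
    | none => Algebra.ofId K L
    | some F => F.1.val
  have h1 := ha (Option S) Z f e f (by
    intro g
    rw [Fintype.sum_option]
    have e1 : fx (f none).fieldRange.fixingSubgroup g = 1 := by
      rw [fx_card (f none) g]
      have h2 : Nat.card {τ : (Z none).F →ₐ[K] L // ∀ x, g (τ x) = τ x} = 1 := by
        have hsub : Subsingleton {τ : (Z none).F →ₐ[K] L // ∀ x, g (τ x) = τ x} := by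
          refine ⟨fun τ τ' => Subtype.ext ?_⟩
          have : Subsingleton (K →ₐ[K] L) := inferInstance
          exact this.elim τ.1 τ'.1
        have hne : Nonempty {τ : (Z none).F →ₐ[K] L // ∀ x, g (τ x) = τ x} :=
          ⟨⟨Algebra.ofId K L, fun x => g.commutes x⟩⟩
        exact Nat.card_eq_one_iff_unique.2 ⟨hsub, hne⟩
      rw [h2]
      rfl
    have e2 : ∀ F : S, fx (f (some F)).fieldRange.fixingSubgroup g = fx F.1.fixingSubgroup g := by
      intro F
      have e3 : (f (some F)).fieldRange = F.1 := F.1.fieldRange_val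
      rw [e3]
    rw [e1]
    simp_rw [e2]
    have h3 := h g
    rw [← Finset.sum_coe_sort] at h3
    change -m * 1 + ∑ F : S, n F.1 * fx F.1.fixingSubgroup g = 0
    rw [h3]
    ring)
  rw [Fintype.sum_option] at h1
  have h2 : -m * a (Ext.self K) + ∑ F : S, n F.1 * a ⟨F.1⟩ = 0 := h1
  rw [Finset.sum_coe_sort S (fun F => n F * a ⟨F⟩)] at h2
  linarith

variable {E : WeierstrassCurve K}

open scoped Classical in
/-- the statement of the parity conjecture for a semistable elliptic curve -/
def Parity {F : Type} [Field F] [NumberField F] (E : WeierstrassCurve F) : Prop :=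
  ∃ r : ℕ, Module.rank ℤ E.toAffine.Point = r ∧
    Even (r + Nat.card (InfinitePlace F) + Nat.card {w : HeightOneSpectrum (𝓞 F) // Split E w})

theorem parity_of_rel (hE : E.IsElliptic) (hs : Semistable E)
    (S : Finset (IntermediateField K L)) (n : IntermediateField K L → ℤ) (m : ℕ) (hm : ¬ 2 ∣ m)
    (h : ∀ g : Gal(L/K), ∑ F ∈ S, n F * fx F.fixingSubgroup g = m)
    (hP : ∀ F ∈ S, Parity (E.map (algebraMap K F))) : Parity E := by
  classical
  have hne : Nonempty S := by
    by_contra h1
    rw [not_nonempty_iff, Finset.isEmpty_coe_sort] at h1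
    have h2 := h 1
    rw [h1, Finset.sum_empty] at h2
    apply hm
    have : m = 0 := by exact_mod_cast h2.symm
    rw [this]
    exact dvd_zero 2
  choose! r hr using hP
  obtain ⟨r0, hr0, hrel⟩ := rank_rel (E := E) (L := L) (fun F : S => F.1) (fun F : S => F.1.val)
    (fun F => n F.1) m (by
      intro g
      have h3 := h g
      rw [← Finset.sum_coe_sort] at h3
      rw [← h3]
      refine Finset.sum_congr rfl fun F _ => ?_
      have e3 : F.1.val.fieldRange = F.1 := F.1.fieldRange_val
      rw [e3]) (fun F => r F.1) (fun F => (hr F.1 F.2).1)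
  have h1 := from_rel (K := K) (L := L) (fun Z => (Nat.card (InfinitePlace Z.F) : ℤ))
    (fun ι _ Z _ e f hf => inf_rel (fun i => (Z i).F) f e hf) S n m h
  have h2 := from_rel (K := K) (L := L) (fun Z => (Nat.card {w : HeightOneSpectrum (𝓞 Z.F) //
      Split (E.map (algebraMap K Z.F)) w} : ℤ))
    (fun ι _ Z _ e f hf => split_rel (fun i => (Z i).F) f e hf hE hs) S n m h
  rw [Finset.sum_coe_sort S (fun F => n F * (r F : ℤ))] at hrel
  have hself : E.map (algebraMap K (Ext.self K).F) = E := E.map_id
  have h2' : (m : ℤ) * (Nat.card {w : HeightOneSpectrum (𝓞 K) // Split E w} : ℤ) =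
      ∑ F ∈ S, n F * (Nat.card {w : HeightOneSpectrum (𝓞 F) //
        Split (E.map (algebraMap K F)) w} : ℤ) := by
    rw [← h2]
    have : ∀ E' : WeierstrassCurve (Ext.self K).F, E' = E →
        Nat.card {w : HeightOneSpectrum (𝓞 K) // Split E w} =
          Nat.card {w : HeightOneSpectrum (𝓞 (Ext.self K).F) // Split E' w} := by
      rintro _ rfl
      rfl
    rw [this _ hself]
  have h1' : (m : ℤ) * (Nat.card (InfinitePlace K) : ℤ) =
      ∑ F ∈ S, n F * (Nat.card (InfinitePlace F) : ℤ) := h1
  refine ⟨r0, hr0, ?_⟩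
  have h4 : (m : ℤ) * ((r0 + Nat.card (InfinitePlace K) +
      Nat.card {w : HeightOneSpectrum (𝓞 K) // Split E w} : ℕ) : ℤ) =
      ∑ F ∈ S, n F * ((r F + Nat.card (InfinitePlace F) + Nat.card {w : HeightOneSpectrum (𝓞 F) //
        Split (E.map (algebraMap K F)) w} : ℕ) : ℤ) := by
    push_cast
    rw [mul_add, mul_add, hrel, h1', h2', ← Finset.sum_add_distrib, ← Finset.sum_add_distrib]
    refine Finset.sum_congr rfl fun F _ => ?_
    ring
  have h5 : Even ((m : ℤ) * ((r0 + Nat.card (InfinitePlace K) +
      Nat.card {w : HeightOneSpectrum (𝓞 K) // Split E w} : ℕ) : ℤ)) := by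
    rw [h4]
    refine Finset.even_sum _ fun F hF => ?_
    refine Even.mul_left ?_ _
    exact_mod_cast (hr F hF).2
  rw [Int.even_mul] at h5
  rcases h5 with h5 | h5
  · exfalso
    apply hm
    have : Even m := by exact_mod_cast h5
    exact this.two_dvd
  · exact_mod_cast h5

/-- **reduction to hyperelementary subgroups** -/
theorem parity_hyper (hE : E.IsElliptic) (hs : Semistable E)
    (hP : ∀ F : IntermediateField K L, IsHyper 2 F.fixingSubgroup →
      Parity (E.map (algebraMap K F))) : Parity E := by
  have key : ∀ g : Gal(L/K), ∃ F : IntermediateField K L, IsHyper 2 F.fixingSubgroup ∧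
      ¬ 2 ∣ emb F g := by
    intro g
    obtain ⟨H, hH, h⟩ := hyper_count Nat.prime_two g
    have e : (IntermediateField.fixedField H).fixingSubgroup = H :=
      IntermediateField.fixingSubgroup_fixedField _
    refine ⟨IntermediateField.fixedField H, ?_, ?_⟩
    · rw [e]
      exact hH
    · have h1 := fx_eq_emb (IntermediateField.fixedField H) g
      rw [e] at h1
      rw [h1] at h
      exact_mod_cast h
  obtain ⟨m, S, n, hm0, hmP, hS, hsum⟩ := gal_unit
    {F : IntermediateField K L | IsHyper 2 F.fixingSubgroup}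
    (by
      intro F hF F' _
      have hle : (F ⊔ F').fixingSubgroup ≤ F.fixingSubgroup := by
        rw [IntermediateField.fixingSubgroup_sup]
        exact inf_le_left
      exact IsHyper.le hF hle)
    (by
      intro F hF σ
      have e : (F.map (σ : L →ₐ[K] L)).fixingSubgroup =
          F.fixingSubgroup.map (MulAut.conj σ).toMonoidHom := IsGalois.map_fixingSubgroup F σ
      rw [Set.mem_ofPred_eq, e]
      exact IsHyper.conj hF σ) {2}
    (by
      intro g
      obtain ⟨F, hF, h⟩ := key g
      exact ⟨F, hF, fun h0 => h (h0 ▸ dvd_zero 2)⟩)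
    (by
      intro g p hp _
      rw [Set.mem_singleton_iff.1 hp]
      exact key g)
  exact parity_of_rel hE hs S n m (hmP 2 rfl Nat.prime_two) hsum fun F hF => hP F (hS F hF)

end

end Pool.Agent.R386.HY
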