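import Pool.Agent.R386.HY.Fix

/-!
# Relations between products over archimedean places
-/

set_option autoImplicit false

namespace Pool.Agent.R386.HY

open NumberField
open Pool.Agent.R433.MD (fx Ext)

open scoped Classical

/-- the local factor at an archimedean place of an extension -/
noncomputable def PF {K : Type} [Field K] [NumberField K] (P c : InfinitePlace K → ℝ) (F : Type)
    [Field F] [NumberField F] [Algebra K F] (w : InfinitePlace F) : ℝ :=
  if w.IsReal then P (w.comap (algebraMap K F)) else c (w.comap (algebraMap K F))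

/-- sums over places and embeddings -/
theorem sum_places (F : Type) [Field F] [NumberField F] (g : InfinitePlace F → ℝ) :
    ∑ w, g w = ∑ τ : F →+* ℂ, (1 / ((InfinitePlace.mk τ).mult : ℝ)) * g (InfinitePlace.mk τ) := by
  rw [← Finset.sum_fiberwise (s := (Finset.univ : Finset (F →+* ℂ))) (g := InfinitePlace.mk)]
  refine Finset.sum_congr rfl fun w _ => ?_
  have h1 : ∀ τ ∈ Finset.univ.filter (fun τ : F →+* ℂ => InfinitePlace.mk τ = w),
      (1 / ((InfinitePlace.mk τ).mult : ℝ)) * g (InfinitePlace.mk τ) =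
        (1 / (w.mult : ℝ)) * g w := by
    intro τ hτ
    rw [(Finset.mem_filter.1 hτ).2]
  rw [Finset.sum_congr rfl h1, Finset.sum_const, InfinitePlace.card_filter_mk_eq, nsmul_eq_mul,
    ← mul_assoc, mul_one_div_cancel InfinitePlace.mult_coe_ne_zero, one_mul]

section
variable {K L : Type} [Field K] [NumberField K] [Field L] [NumberField L] [Algebra K L]
  [IsGalois K L]

omit [NumberField L] [IsGalois K L] in
theorem sum_over (P c : InfinitePlace K → ℝ) (F : Type) [Field F] [NumberField F] [Algebra K F] :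
    ∑ w : InfinitePlace F, Real.log |PF P c F w| = ∑ κ : K →+* ℂ,
      ((Nat.card {τ : F →+* ℂ // τ.comp (algebraMap K F) = κ ∧
        ∀ x, (starRingEnd ℂ) (τ x) = τ x} : ℝ) * (Real.log |P (InfinitePlace.mk κ)| -
          (1 / 2) * Real.log |c (InfinitePlace.mk κ)|) +
      (Nat.card {τ : F →+* ℂ // τ.comp (algebraMap K F) = κ ∧
        ∀ x, (RingHom.id ℂ) (τ x) = τ x} : ℝ) * ((1 / 2) * Real.log |c (InfinitePlace.mk κ)|)) := by
  rw [sum_places, ← Finset.sum_fiberwise (s := (Finset.univ : Finset (F →+* ℂ)))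
    (g := fun τ => τ.comp (algebraMap K F))]
  refine Finset.sum_congr rfl fun κ _ => ?_
  have h1 : ∀ τ ∈ Finset.univ.filter (fun τ : F →+* ℂ => τ.comp (algebraMap K F) = κ),
      (1 / ((InfinitePlace.mk τ).mult : ℝ)) * Real.log |PF P c F (InfinitePlace.mk τ)| =
        (if (∀ x, (starRingEnd ℂ) (τ x) = τ x) then (Real.log |P (InfinitePlace.mk κ)| -
          (1 / 2) * Real.log |c (InfinitePlace.mk κ)|) else 0) +
          (1 / 2) * Real.log |c (InfinitePlace.mk κ)| := by
    intro τ hτ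
    have hc : (InfinitePlace.mk τ).comap (algebraMap K F) = InfinitePlace.mk κ := by
      rw [InfinitePlace.comap_mk, (Finset.mem_filter.1 hτ).2]
    have hr : (∀ x, (starRingEnd ℂ) (τ x) = τ x) ↔ (InfinitePlace.mk τ).IsReal := by
      rw [InfinitePlace.isReal_mk_iff, ComplexEmbedding.isReal_iff]
      exact ⟨fun h => RingHom.ext h, fun h x => RingHom.congr_fun h x⟩
    unfold PF
    rw [hc]
    by_cases h : (InfinitePlace.mk τ).IsReal
    · rw [if_pos h, if_pos (hr.2 h), h.mult_eq_one]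
      push_cast
      ring
    · rw [if_neg h, if_neg (fun h' => h (hr.1 h')),
        (InfinitePlace.not_isReal_iff_isComplex.1 h).mult_eq_two]
      push_cast
      ring
  rw [Finset.sum_congr rfl h1, Finset.sum_add_distrib, Finset.sum_const, ← Finset.sum_filter,
    Finset.sum_const, nsmul_eq_mul, nsmul_eq_mul]
  congr 3
  · rw [Finset.filter_filter, Nat.card_eq_fintype_card, Fintype.card_subtype]
  · rw [Nat.card_eq_fintype_card, Fintype.card_subtype]
    congr 1
    ext τ
    simp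

variable {ι : Type} [Fintype ι] (F : ι → Type) [∀ i, Field (F i)] [∀ i, NumberField (F i)]
  [∀ i, Algebra K (F i)] (f : ∀ i, F i →ₐ[K] L) (e : ι → ℤ)

include f in
theorem per_rel (h : ∀ g : Gal(L/K), ∑ i, e i * fx (f i).fieldRange.fixingSubgroup g = 0)
    (P c : InfinitePlace K → ℝ) :
    ∑ i, (e i : ℝ) * ∑ w : InfinitePlace (F i), Real.log |PF P c (F i) w| = 0 := by
  simp_rw [sum_over P c, Finset.mul_sum]
  rw [Finset.sum_comm]
  refine Finset.sum_eq_zero fun κ _ => ?_
  have h1 := fix_rel F f e h κ (starRingEnd ℂ)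
  have h2 := fix_rel F f e h κ (RingHom.id ℂ)
  have h1' : ∑ i, (e i : ℝ) * (Nat.card {τ : F i →+* ℂ // τ.comp (algebraMap K (F i)) = κ ∧
      ∀ x, (starRingEnd ℂ) (τ x) = τ x} : ℝ) = 0 := by exact_mod_cast h1
  have h2' : ∑ i, (e i : ℝ) * (Nat.card {τ : F i →+* ℂ // τ.comp (algebraMap K (F i)) = κ ∧
      ∀ x, (RingHom.id ℂ) (τ x) = τ x} : ℝ) = 0 := by exact_mod_cast h2
  simp_rw [mul_add, ← mul_assoc]
  rw [Finset.sum_add_distrib]
  simp_rw [mul_assoc]
  have e1 : ∀ i, (e i : ℝ) * ((Nat.card {τ : F i →+* ℂ // τ.comp (algebraMap K (F i)) = κ ∧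
      ∀ x, (starRingEnd ℂ) (τ x) = τ x} : ℝ) * (Real.log |P (InfinitePlace.mk κ)| -
          (1 / 2) * Real.log |c (InfinitePlace.mk κ)|)) =
      ((e i : ℝ) * (Nat.card {τ : F i →+* ℂ // τ.comp (algebraMap K (F i)) = κ ∧
      ∀ x, (starRingEnd ℂ) (τ x) = τ x} : ℝ)) * (Real.log |P (InfinitePlace.mk κ)| -
          (1 / 2) * Real.log |c (InfinitePlace.mk κ)|) := fun i => by ring
  have e2 : ∀ i, (e i : ℝ) * ((Nat.card {τ : F i →+* ℂ // τ.comp (algebraMap K (F i)) = κ ∧
      ∀ x, (RingHom.id ℂ) (τ x) = τ x} : ℝ) * ((1 / 2) * Real.log |c (InfinitePlace.mk κ)|)) =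
      ((e i : ℝ) * (Nat.card {τ : F i →+* ℂ // τ.comp (algebraMap K (F i)) = κ ∧
      ∀ x, (RingHom.id ℂ) (τ x) = τ x} : ℝ)) * ((1 / 2) * Real.log |c (InfinitePlace.mk κ)|) :=
    fun i => by ring
  simp_rw [e1, e2]
  rw [← Finset.sum_mul, ← Finset.sum_mul, h1', h2', zero_mul, zero_mul, add_zero]

end

end Pool.Agent.R386.HY
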