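import Pool.Agent.R386.HY.Per
import Pool.Agent.R386.HY.Disc
import Pool.Agent.R386.HY.LVal
import Pool.Agent.R333.BR.Ord

/-!
# Central values and periods
-/

set_option autoImplicit false

namespace Pool.Agent.R386.HY

open NumberField IsDedekindDomain
open Pool.Agent.H341R2.EC
open Pool.Agent.R433.MD
open Pool.Agent.R333.BR (fx_card)

open scoped Classical

section
variable {K L : Type} [Field K] [NumberField K] [Field L] [NumberField L] [Algebra K L]
  [IsGalois K L]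

/-- the family of the base field and some intermediate fields -/
noncomputable def zz (S : Finset (IntermediateField K L)) : Option S → Ext K
  | none => Ext.self K
  | some F => ⟨F.1⟩

/-- the coefficients -/
def ee (S : Finset (IntermediateField K L)) (n : IntermediateField K L → ℤ) (m : ℤ) :
    Option S → ℤ
  | none => -m
  | some F => n F.1

/-- the embeddings -/
noncomputable def ff (S : Finset (IntermediateField K L)) : ∀ i, (zz S i).F →ₐ[K] L
  | none => Algebra.ofId K L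
  | some F => F.1.val

theorem fam_rel (S : Finset (IntermediateField K L)) (n : IntermediateField K L → ℤ) (m : ℤ)
    (h : ∀ g : Gal(L/K), ∑ F ∈ S, n F * fx F.fixingSubgroup g = m) (g : Gal(L/K)) :
    ∑ i, ee S n m i * fx (ff S i).fieldRange.fixingSubgroup g = 0 := by
  rw [Fintype.sum_option]
  have e1 : fx (ff S none).fieldRange.fixingSubgroup g = 1 := by
    rw [fx_card (ff S none) g]
    have h2 : Nat.card {τ : (zz S none).F →ₐ[K] L // ∀ x, g (τ x) = τ x} = 1 := by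
      have hsub : Subsingleton {τ : (zz S none).F →ₐ[K] L // ∀ x, g (τ x) = τ x} := by
        refine ⟨fun τ τ' => Subtype.ext ?_⟩
        have : Subsingleton (K →ₐ[K] L) := inferInstance
        exact this.elim τ.1 τ'.1
      have hne : Nonempty {τ : (zz S none).F →ₐ[K] L // ∀ x, g (τ x) = τ x} :=
        ⟨⟨Algebra.ofId K L, fun x => g.commutes x⟩⟩
      exact Nat.card_eq_one_iff_unique.2 ⟨hsub, hne⟩
    rw [h2]
    rfl
  have e2 : ∀ F : S, fx (ff S (some F)).fieldRange.fixingSubgroup g = fx F.1.fixingSubgroup g := by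
    intro F
    have e3 : (ff S (some F)).fieldRange = F.1 := F.1.fieldRange_val
    rw [e3]
  rw [e1]
  simp_rw [e2]
  have h3 := h g
  rw [← Finset.sum_coe_sort] at h3
  change -m * 1 + ∑ F : S, n F.1 * fx F.1.fixingSubgroup g = 0
  rw [h3]
  ring

/-- the period of an extension -/
noncomputable def om (P c : InfinitePlace K → ℝ) (F : Type) [Field F] [NumberField F]
    [Algebra K F] : ℝ :=
  √|(discr F : ℝ)| * ∏ w : InfinitePlace F, PF P c F w

omit [IsGalois K L] [NumberField L] in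
theorem om_ne {P c : InfinitePlace K → ℝ} (hP : ∀ v, P v ≠ 0) (hc : ∀ v, c v ≠ 0) (F : Type)
    [Field F] [NumberField F] [Algebra K F] : om P c F ≠ 0 := by
  have hd : (discr F : ℝ) ≠ 0 := by exact_mod_cast discr_ne_zero F
  refine mul_ne_zero (Real.sqrt_ne_zero'.2 (abs_pos.2 hd)) (Finset.prod_ne_zero_iff.2 fun w _ => ?_)
  unfold PF
  split_ifs
  · exact hP _
  · exact hc _

omit [IsGalois K L] [NumberField L] in
theorem log_om {P c : InfinitePlace K → ℝ} (hP : ∀ v, P v ≠ 0) (hc : ∀ v, c v ≠ 0) (F : Type)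
    [Field F] [NumberField F] [Algebra K F] :
    Real.log |om P c F| = (1 / 2) * Real.log |(discr F : ℝ)| +
      ∑ w : InfinitePlace F, Real.log |PF P c F w| := by
  have hd : (discr F : ℝ) ≠ 0 := by exact_mod_cast discr_ne_zero F
  have hw : ∀ w ∈ (Finset.univ : Finset (InfinitePlace F)), |PF P c F w| ≠ 0 := by
    intro w _
    rw [abs_ne_zero]
    unfold PF
    split_ifs
    · exact hP _
    · exact hc _
  unfold om
  rw [abs_mul, Real.log_mul (abs_ne_zero.2 (Real.sqrt_ne_zero'.2 (abs_pos.2 hd)))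
    (abs_ne_zero.2 (Finset.prod_ne_zero_iff.2 fun w hw' => abs_ne_zero.1 (hw w hw'))),
    Finset.abs_prod, Real.log_prod hw, abs_of_nonneg (Real.sqrt_nonneg _),
    Real.log_sqrt (abs_nonneg _)]
  ring

omit [IsGalois K L] [NumberField L] in
theorem om_self {P c : InfinitePlace K → ℝ} (hPc : ∀ v, v.IsComplex → P v = c v) :
    om P c (Ext.self K).F = √|(discr K : ℝ)| * ∏ w : InfinitePlace K, P w := by
  change √|(discr K : ℝ)| * ∏ w : InfinitePlace K, PF P c K w = _
  congr 1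
  refine Finset.prod_congr rfl fun w _ => ?_
  unfold PF
  have e1 : w.comap (algebraMap K K) = w := InfinitePlace.comap_id w
  rw [e1]
  split_ifs with h
  · rfl
  · exact (hPc w (InfinitePlace.not_isReal_iff_isComplex.1 h)).symm

/-- **the periods satisfy the relations modulo rational numbers** -/
theorem om_rel (S : Finset (IntermediateField K L)) (n : IntermediateField K L → ℤ)
    (h : ∀ g : Gal(L/K), ∑ F ∈ S, n F * fx F.fixingSubgroup g = 1)
    {P c : InfinitePlace K → ℝ} (hP : ∀ v, P v ≠ 0) (hc : ∀ v, c v ≠ 0)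
    (hPc : ∀ v, v.IsComplex → P v = c v) :
    ∃ ρ : ℚ, ∏ F ∈ S, om P c F ^ n F = ρ * (√|(discr K : ℝ)| * ∏ w : InfinitePlace K, P w) := by
  have hr := fam_rel S n 1 h
  obtain ⟨q, hq⟩ := disc_rel (fun i => (zz S i).F) (ff S) (ee S n 1) hr
  have hp := per_rel (fun i => (zz S i).F) (ff S) (ee S n 1) hr P c
  have hd : ∀ i, (discr (zz S i).F : ℝ) ≠ 0 := fun i => by exact_mod_cast discr_ne_zero (zz S i).F
  have hq' : (q : ℝ) ^ 2 = ∏ i, (discr (zz S i).F : ℝ) ^ ee S n 1 i := by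
    have h1 := congrArg (fun x : ℚ => (x : ℝ)) hq
    push_cast at h1
    exact h1
  have hq0 : (q : ℝ) ≠ 0 := by
    intro h0
    rw [h0] at hq'
    have : ∏ i, (discr (zz S i).F : ℝ) ^ ee S n 1 i ≠ 0 :=
      Finset.prod_ne_zero_iff.2 fun i _ => zpow_ne_zero _ (hd i)
    apply this
    rw [← hq']
    norm_num
  have hlq : 2 * Real.log |(q : ℝ)| = ∑ i, (ee S n 1 i : ℝ) * Real.log |(discr (zz S i).F : ℝ)| := by
    have h1 := congrArg Real.log (congrArg abs hq')
    rw [abs_pow, Real.log_pow, Finset.abs_prod, Real.log_prod fun i _ =>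
      abs_ne_zero.2 (zpow_ne_zero _ (hd i))] at h1
    push_cast at h1
    rw [h1]
    refine Finset.sum_congr rfl fun i _ => ?_
    rw [abs_zpow, Real.log_zpow]
  have hlo : ∑ i, (ee S n 1 i : ℝ) * Real.log |om P c (zz S i).F| = Real.log |(q : ℝ)| := by
    simp_rw [log_om hP hc, mul_add]
    rw [Finset.sum_add_distrib, hp, add_zero]
    have : ∀ i, (ee S n 1 i : ℝ) * ((1 / 2) * Real.log |(discr (zz S i).F : ℝ)|) =
        (1 / 2) * ((ee S n 1 i : ℝ) * Real.log |(discr (zz S i).F : ℝ)|) := fun i => by ring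
    simp_rw [this]
    rw [← Finset.mul_sum, ← hlq]
    ring
  rw [Fintype.sum_option] at hlo
  have h1 : ((ee S n 1 none : ℤ) : ℝ) * Real.log |om P c (zz S none).F| =
      -Real.log |√|(discr K : ℝ)| * ∏ w : InfinitePlace K, P w| := by
    rw [← om_self hPc]
    change ((-1 : ℤ) : ℝ) * _ = _
    push_cast
    rw [neg_one_mul]
    rfl
  have h2 : ∑ F : S, ((ee S n 1 (some F) : ℤ) : ℝ) * Real.log |om P c (zz S (some F)).F| =
      ∑ F ∈ S, (n F : ℝ) * Real.log |om P c F| :=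
    Finset.sum_coe_sort S fun F => (n F : ℝ) * Real.log |om P c F|
  rw [h1, h2] at hlo
  set ΩK := √|(discr K : ℝ)| * ∏ w : InfinitePlace K, P w with hΩK
  have hΩ0 : ΩK ≠ 0 := by
    rw [hΩK, ← om_self hPc]
    exact om_ne hP hc _
  have hprod0 : ∏ F ∈ S, om P c F ^ n F ≠ 0 :=
    Finset.prod_ne_zero_iff.2 fun F _ => zpow_ne_zero _ (om_ne hP hc F)
  have h3 : Real.log |∏ F ∈ S, om P c F ^ n F| = ∑ F ∈ S, (n F : ℝ) * Real.log |om P c F| := by
    rw [Finset.abs_prod, Real.log_prod fun (F : IntermediateField K L) _ =>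
      abs_ne_zero.2 (zpow_ne_zero (n F) (om_ne hP hc F))]
    refine Finset.sum_congr rfl fun F _ => ?_
    rw [abs_zpow, Real.log_zpow]
  have h4 : Real.log |∏ F ∈ S, om P c F ^ n F| = Real.log (|(q : ℝ)| * |ΩK|) := by
    rw [Real.log_mul (abs_ne_zero.2 hq0) (abs_ne_zero.2 hΩ0), h3]
    linarith
  have h5 : |∏ F ∈ S, om P c F ^ n F| = |(q : ℝ) * ΩK| := by
    rw [abs_mul]
    exact Real.log_injOn_pos (abs_pos.2 hprod0)
      (mul_pos (abs_pos.2 hq0) (abs_pos.2 hΩ0)) h4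
  rcases abs_eq_abs.1 h5 with h6 | h6
  · exact ⟨q, h6⟩
  · refine ⟨-q, ?_⟩
    rw [h6]
    push_cast
    ring

variable {E : WeierstrassCurve K}

/-- uniqueness of the value of the continuation -/
theorem val_eq {U : Set ℂ} (hU : IsPreconnected U) (hH : ∀ s : ℂ, 3 / 2 < s.re → s ∈ U)
    (h1 : (1 : ℂ) ∈ U) {f g : ℂ → ℂ} (hf : MeromorphicOn f U) (hg : MeromorphicOn g U)
    (hfa : AnalyticAt ℂ f 1) (hga : AnalyticAt ℂ g 1)
    (h : ∀ s : ℂ, 3 / 2 < s.re → f s = g s) : f 1 = g 1 := by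
  have hh : MeromorphicOn (fun s => f s - g s) U := hf.fun_sub hg
  have h2 : meromorphicOrderAt (fun s => f s - g s) 2 = ⊤ := by
    rw [meromorphicOrderAt_eq_top_iff]
    apply eventually_nhdsWithin_of_eventually_nhds
    filter_upwards [Pool.Agent.R333.BR.half_nhds] with s hs
    rw [h s hs, sub_self]
  have h2U : (2 : ℂ) ∈ U := hH 2 (by norm_num)
  have h4 : meromorphicOrderAt (fun s => f s - g s) 1 = ⊤ := by
    by_contra h5
    exact hh.meromorphicOrderAt_ne_top_of_isPreconnected hU h1 h2U h5 h2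
  have ha : AnalyticAt ℂ (fun s => f s - g s) 1 := hfa.fun_sub hga
  rw [meromorphicOrderAt_eq_top_iff] at h4
  have h5 : ∀ᶠ s in nhds (1 : ℂ), f s - g s = 0 := by
    rcases ha.eventually_eq_zero_or_eventually_ne_zero with h6 | h6
    · exact h6
    · obtain ⟨s, hs1, hs2⟩ := (h4.and h6).exists
      exact absurd hs1 hs2
  exact sub_eq_zero.1 h5.self_of_nhds

/-- **central values** -/
theorem val_rel (hE : E.IsElliptic) (S : Finset (IntermediateField K L))
    (n : IntermediateField K L → ℤ)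
    (h : ∀ g : Gal(L/K), ∑ F ∈ S, n F * fx F.fixingSubgroup g = 1) (U : Set ℂ)
    (Λ : IntermediateField K L → ℂ → ℂ)
    (hΛ : ∀ F ∈ S, MeromorphicOn (Λ F) U ∧ AnalyticAt ℂ (Λ F) 1 ∧ Λ F 1 ≠ 0 ∧
      ∃ V : HeightOneSpectrum (𝓞 F) → WeierstrassCurve (𝓞 F),
        (∀ w, IsMinAt (E.map (algebraMap K F)) w (V w)) ∧
        ∀ s : ℂ, 3 / 2 < s.re → Λ F s = LL V s)
    (V0 : HeightOneSpectrum (𝓞 K) → WeierstrassCurve (𝓞 K)) (hV0 : ∀ w, IsMinAt E w (V0 w)) :
    ∃ (Λ0 : ℂ → ℂ) (q : ℚ), MeromorphicOn Λ0 U ∧ AnalyticAt ℂ Λ0 1 ∧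
      (∀ s : ℂ, 3 / 2 < s.re → Λ0 s = LL V0 s) ∧ q ≠ 0 ∧
      Λ0 1 = q * ∏ F ∈ S, Λ F 1 ^ n F := by
  have hV : ∀ F : S, ∃ V : HeightOneSpectrum (𝓞 F.1) → WeierstrassCurve (𝓞 F.1),
        (∀ w, IsMinAt (E.map (algebraMap K F.1)) w (V w)) ∧
        ∀ s : ℂ, 3 / 2 < s.re → Λ F.1 s = LL V s := fun F => (hΛ F.1 F.2).2.2.2
  choose V hVm hVL using hV
  obtain ⟨R, q, hR, ⟨hRa, hq0, hR1⟩, hRL⟩ := L_rel_rat (K := K) (L := L)
    (fun F : S => (⟨F.1⟩ : Ext K)) (fun F => F.1.val) (fun F => n F.1) 1 (by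
      intro g
      have h3 := h g
      rw [← Finset.sum_coe_sort] at h3
      rw [Nat.cast_one, ← h3]
      refine Finset.sum_congr rfl fun F _ => ?_
      have e3 : F.1.val.fieldRange = F.1 := F.1.fieldRange_val
      rw [e3]) E hE V0 hV0 V hVm
  refine ⟨fun s => R s * ∏ F : S, Λ F.1 s ^ n F.1, q, ?_, ?_, fun s hs => ?_, hq0, ?_⟩
  · have hRU : MeromorphicOn R U := fun x _ => hR x trivial
    refine hRU.fun_mul ?_
    apply MeromorphicOn.fun_prod
    intro F _
    exact (hΛ F.1 F.2).1.fun_zpow _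
  · refine hRa.fun_mul ?_
    apply Finset.analyticAt_fun_prod
    intro F _
    exact (hΛ F.1 F.2).2.1.fun_zpow (hΛ F.1 F.2).2.2.1
  · have h2 := (hRL s hs).2
    rw [pow_one] at h2
    rw [h2]
    have h5 : ∀ F : S, Λ F.1 s ^ n F.1 = LL (V F) s ^ n F.1 := fun F => by rw [hVL F s hs]
    change R s * ∏ F : S, Λ F.1 s ^ n F.1 = R s * ∏ F : S, LL (V F) s ^ n F.1
    simp_rw [h5]
  · change R 1 * ∏ F : S, Λ F.1 1 ^ n F.1 = _
    rw [hR1, Finset.prod_coe_sort S fun F : IntermediateField K L => Λ F 1 ^ n F]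

end

end Pool.Agent.R386.HY
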