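import Pool.Agent.R386.HY.Rat

/-!
# Central values and periods: relations with multiplicity
-/

set_option autoImplicit false

namespace Pool.Agent.R386.HY

open NumberField IsDedekindDomain
open Pool.Agent.H341R2.EC
open Pool.Agent.R433.MD
open Pool.Agent.R333.BR (fx_card)

open scoped Classical

section
variable {K L : Type} [Field K] [NumberField K] [Field L] [NumberField L] [Algebra K L]
  [IsGalois K L]

/-- **the periods satisfy the relations modulo rational numbers** -/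
theorem om_relM (S : Finset (IntermediateField K L)) (n : IntermediateField K L → ℤ)
    (m : ℕ) (h : ∀ g : Gal(L/K), ∑ F ∈ S, n F * fx F.fixingSubgroup g = m)
    {P c : InfinitePlace K → ℝ} (hP : ∀ v, P v ≠ 0) (hc : ∀ v, c v ≠ 0)
    (hPc : ∀ v, v.IsComplex → P v = c v) :
    ∃ ρ : ℚ, ∏ F ∈ S, om P c F ^ n F =
      ρ * (√|(discr K : ℝ)| * ∏ w : InfinitePlace K, P w) ^ m := by
  have hr := fam_rel S n m h
  obtain ⟨q, hq⟩ := disc_rel (fun i => (zz S i).F) (ff S) (ee S n m) hr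
  have hp := per_rel (fun i => (zz S i).F) (ff S) (ee S n m) hr P c
  have hd : ∀ i, (discr (zz S i).F : ℝ) ≠ 0 := fun i => by exact_mod_cast discr_ne_zero (zz S i).F
  have hq' : (q : ℝ) ^ 2 = ∏ i, (discr (zz S i).F : ℝ) ^ ee S n m i := by
    have h1 := congrArg (fun x : ℚ => (x : ℝ)) hq
    push_cast at h1
    exact h1
  have hq0 : (q : ℝ) ≠ 0 := by
    intro h0
    rw [h0] at hq'
    have : ∏ i, (discr (zz S i).F : ℝ) ^ ee S n m i ≠ 0 :=
      Finset.prod_ne_zero_iff.2 fun i _ => zpow_ne_zero _ (hd i)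
    apply this
    rw [← hq']
    norm_num
  have hlq : 2 * Real.log |(q : ℝ)| = ∑ i, (ee S n m i : ℝ) * Real.log |(discr (zz S i).F : ℝ)| := by
    have h1 := congrArg Real.log (congrArg abs hq')
    rw [abs_pow, Real.log_pow, Finset.abs_prod, Real.log_prod fun i _ =>
      abs_ne_zero.2 (zpow_ne_zero _ (hd i))] at h1
    push_cast at h1
    rw [h1]
    refine Finset.sum_congr rfl fun i _ => ?_
    rw [abs_zpow, Real.log_zpow]
  have hlo : ∑ i, (ee S n m i : ℝ) * Real.log |om P c (zz S i).F| = Real.log |(q : ℝ)| := by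
    simp_rw [log_om hP hc, mul_add]
    rw [Finset.sum_add_distrib, hp, add_zero]
    have : ∀ i, (ee S n m i : ℝ) * ((1 / 2) * Real.log |(discr (zz S i).F : ℝ)|) =
        (1 / 2) * ((ee S n m i : ℝ) * Real.log |(discr (zz S i).F : ℝ)|) := fun i => by ring
    simp_rw [this]
    rw [← Finset.mul_sum, ← hlq]
    ring
  rw [Fintype.sum_option] at hlo
  have h1 : ((ee S n m none : ℤ) : ℝ) * Real.log |om P c (zz S none).F| =
      -(m * Real.log |√|(discr K : ℝ)| * ∏ w : InfinitePlace K, P w|) := by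
    rw [← om_self hPc]
    change ((-(m : ℤ) : ℤ) : ℝ) * _ = _
    push_cast
    rw [neg_mul]
    rfl
  have h2 : ∑ F : S, ((ee S n m (some F) : ℤ) : ℝ) * Real.log |om P c (zz S (some F)).F| =
      ∑ F ∈ S, (n F : ℝ) * Real.log |om P c F| :=
    Finset.sum_coe_sort S fun F => (n F : ℝ) * Real.log |om P c F|
  rw [h1, h2] at hlo
  set ΩK := √|(discr K : ℝ)| * ∏ w : InfinitePlace K, P w with hΩK
  have hΩ0 : ΩK ≠ 0 := by
    rw [hΩK, ← om_self hPc]
    exact om_ne hP hc _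
  have hprod0 : ∏ F ∈ S, om P c F ^ n F ≠ 0 :=
    Finset.prod_ne_zero_iff.2 fun F _ => zpow_ne_zero _ (om_ne hP hc F)
  have h3 : Real.log |∏ F ∈ S, om P c F ^ n F| = ∑ F ∈ S, (n F : ℝ) * Real.log |om P c F| := by
    rw [Finset.abs_prod, Real.log_prod fun (F : IntermediateField K L) _ =>
      abs_ne_zero.2 (zpow_ne_zero (n F) (om_ne hP hc F))]
    refine Finset.sum_congr rfl fun F _ => ?_
    rw [abs_zpow, Real.log_zpow]
  have h4 : Real.log |∏ F ∈ S, om P c F ^ n F| = Real.log (|(q : ℝ)| * |ΩK ^ m|) := by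
    rw [Real.log_mul (abs_ne_zero.2 hq0) (abs_ne_zero.2 (pow_ne_zero m hΩ0)), h3, abs_pow,
      Real.log_pow]
    linarith
  have h5 : |∏ F ∈ S, om P c F ^ n F| = |(q : ℝ) * ΩK ^ m| := by
    rw [abs_mul]
    exact Real.log_injOn_pos (abs_pos.2 hprod0)
      (mul_pos (abs_pos.2 hq0) (abs_pos.2 (pow_ne_zero m hΩ0))) h4
  rcases abs_eq_abs.1 h5 with h6 | h6
  · exact ⟨q, h6⟩
  · refine ⟨-q, ?_⟩
    rw [h6]
    push_cast
    ring

variable {E : WeierstrassCurve K}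

/-- **central values** -/
theorem val_relM (hE : E.IsElliptic) (S : Finset (IntermediateField K L))
    (n : IntermediateField K L → ℤ) (m : ℕ)
    (h : ∀ g : Gal(L/K), ∑ F ∈ S, n F * fx F.fixingSubgroup g = m) (U : Set ℂ)
    (Λ : IntermediateField K L → ℂ → ℂ)
    (hΛ : ∀ F ∈ S, MeromorphicOn (Λ F) U ∧ AnalyticAt ℂ (Λ F) 1 ∧ Λ F 1 ≠ 0 ∧
      ∃ V : HeightOneSpectrum (𝓞 F) → WeierstrassCurve (𝓞 F),
        (∀ w, IsMinAt (E.map (algebraMap K F)) w (V w)) ∧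
        ∀ s : ℂ, 3 / 2 < s.re → Λ F s = LL V s)
    (V0 : HeightOneSpectrum (𝓞 K) → WeierstrassCurve (𝓞 K)) (hV0 : ∀ w, IsMinAt E w (V0 w)) :
    ∃ (Λ0 : ℂ → ℂ) (q : ℚ), MeromorphicOn Λ0 U ∧ AnalyticAt ℂ Λ0 1 ∧
      (∀ s : ℂ, 3 / 2 < s.re → Λ0 s = LL V0 s ^ m) ∧ q ≠ 0 ∧
      Λ0 1 = q * ∏ F ∈ S, Λ F 1 ^ n F := by
  have hV : ∀ F : S, ∃ V : HeightOneSpectrum (𝓞 F.1) → WeierstrassCurve (𝓞 F.1),
        (∀ w, IsMinAt (E.map (algebraMap K F.1)) w (V w)) ∧
        ∀ s : ℂ, 3 / 2 < s.re → Λ F.1 s = LL V s := fun F => (hΛ F.1 F.2).2.2.2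
  choose V hVm hVL using hV
  obtain ⟨R, q, hR, ⟨hRa, hq0, hR1⟩, hRL⟩ := L_rel_rat (K := K) (L := L)
    (fun F : S => (⟨F.1⟩ : Ext K)) (fun F => F.1.val) (fun F => n F.1) m (by
      intro g
      have h3 := h g
      rw [← Finset.sum_coe_sort] at h3
      rw [← h3]
      refine Finset.sum_congr rfl fun F _ => ?_
      have e3 : F.1.val.fieldRange = F.1 := F.1.fieldRange_val
      rw [e3]) E hE V0 hV0 V hVm
  refine ⟨fun s => R s * ∏ F : S, Λ F.1 s ^ n F.1, q, ?_, ?_, fun s hs => ?_, hq0, ?_⟩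
  · have hRU : MeromorphicOn R U := fun x _ => hR x trivial
    refine hRU.fun_mul ?_
    apply MeromorphicOn.fun_prod
    intro F _
    exact (hΛ F.1 F.2).1.fun_zpow _
  · refine hRa.fun_mul ?_
    apply Finset.analyticAt_fun_prod
    intro F _
    exact (hΛ F.1 F.2).2.1.fun_zpow (hΛ F.1 F.2).2.2.1
  · have h2 := (hRL s hs).2
    rw [h2]
    have h5 : ∀ F : S, Λ F.1 s ^ n F.1 = LL (V F) s ^ n F.1 := fun F => by rw [hVL F s hs]
    change R s * ∏ F : S, Λ F.1 s ^ n F.1 = R s * ∏ F : S, LL (V F) s ^ n F.1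
    simp_rw [h5]
  · change R 1 * ∏ F : S, Λ F.1 1 ^ n F.1 = _
    rw [hR1, Finset.prod_coe_sort S fun F : IntermediateField K L => Λ F 1 ^ n F]

end

end Pool.Agent.R386.HY
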