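import Pool.Agent.R386.HY.Deg
import Pool.Agent.R433.MD.Relation
import Pool.Agent.R433.MD.Exist

/-!
# Split multiplicative reduction
-/

set_option autoImplicit false

namespace Pool.Agent.R386.HY

open NumberField IsDedekindDomain
open Pool.Agent.R433.MD
open Pool.Agent.H921R2.TatePole (nm two_le_nm)
open Pool.Agent.H341R2.EC

/-- split multiplicative reduction at `w`: there is an integral model with `Δ ∈ w`, `c₄ ∉ w` whose
reduction (a nodal cubic) has `q - 1` affine points over the residue field with `q` elements -/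
def Split {F : Type} [Field F] [NumberField F] (E : WeierstrassCurve F)
    (w : HeightOneSpectrum (𝓞 F)) : Prop :=
  ∃ V : WeierstrassCurve (𝓞 F), IsModel E V ∧ V.Δ ∈ w.asIdeal ∧ V.c₄ ∉ w.asIdeal ∧
    aff (red w V) + 1 = nm w

/-- semistable curves: at every prime there is an integral model with good or nodal reduction -/
def Semistable {F : Type} [Field F] [NumberField F] (E : WeierstrassCurve F) : Prop :=
  ∀ v : HeightOneSpectrum (𝓞 F), ∃ V : WeierstrassCurve (𝓞 F), IsModel E V ∧
    (V.Δ ∉ v.asIdeal ∨ V.c₄ ∉ v.asIdeal)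

section
variable {F : Type} [Field F] [NumberField F] {E : WeierstrassCurve F}

theorem val_one {w : HeightOneSpectrum (𝓞 F)} {x : 𝓞 F} :
    x ∉ w.asIdeal ↔ w.valuation F (algebraMap (𝓞 F) F x) = 1 := by
  rw [w.valuation_of_algebraMap]
  constructor
  · intro h
    refine le_antisymm (w.intValuation_le_one x) ?_
    rw [← not_lt]
    exact fun h1 => h ((w.intValuation_lt_one_iff_mem x).1 h1)
  · intro h h1
    have h2 := (w.intValuation_lt_one_iff_mem x).2 h1
    rw [h] at h2
    exact lt_irrefl _ h2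

/-- two models -/
theorem models {V W : WeierstrassCurve (𝓞 F)} (hV : IsModel E V) (hW : IsModel E W)
    (w : HeightOneSpectrum (𝓞 F)) :
    ∃ C : WeierstrassCurve.VariableChange F,
      C • W.map (algebraMap (𝓞 F) F) = V.map (algebraMap (𝓞 F) F) ∧
      w.valuation F (algebraMap (𝓞 F) F V.Δ) = ((w.valuation F (C.u : F))⁻¹) ^ 12 *
        w.valuation F (algebraMap (𝓞 F) F W.Δ) ∧
      w.valuation F (algebraMap (𝓞 F) F V.c₄) = ((w.valuation F (C.u : F))⁻¹) ^ 4 *
        w.valuation F (algebraMap (𝓞 F) F W.c₄) := by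
  obtain ⟨C, hC⟩ := hW
  obtain ⟨C', hC'⟩ := hV
  have hrel : (C' * C⁻¹) • W.map (algebraMap (𝓞 F) F) = V.map (algebraMap (𝓞 F) F) := by
    rw [← hC', ← hC, smul_smul, mul_assoc, inv_mul_cancel, mul_one]
  refine ⟨C' * C⁻¹, hrel, ?_, ?_⟩
  · have h1 := congrArg WeierstrassCurve.Δ hrel
    rw [WeierstrassCurve.variableChange_Δ, WeierstrassCurve.map_Δ, WeierstrassCurve.map_Δ] at h1
    rw [← h1, map_mul, map_pow, Units.val_inv_eq_inv_val, map_inv₀]
  · have h1 := congrArg WeierstrassCurve.c₄ hrel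
    rw [WeierstrassCurve.variableChange_c₄, WeierstrassCurve.map_c₄, WeierstrassCurve.map_c₄] at h1
    rw [← h1, map_mul, map_pow, Units.val_inv_eq_inv_val, map_inv₀]

theorem not_split {W : WeierstrassCurve (𝓞 F)} (hW : IsModel E W) {w : HeightOneSpectrum (𝓞 F)}
    (h : W.Δ ∉ w.asIdeal) : ¬ Split E w := by
  rintro ⟨V, hV, hΔ, hc, -⟩
  obtain ⟨C, -, h1, h2⟩ := models hV hW w
  rw [val_one.1 h, mul_one] at h1
  rw [val_one.1 hc] at h2
  set t := (w.valuation F (C.u : F))⁻¹ with ht
  have h3 : t ^ 12 < 1 := by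
    rw [← h1, w.valuation_of_algebraMap]
    exact (w.intValuation_lt_one_iff_mem _).2 hΔ
  have h4 : t < 1 := by
    by_contra h5
    rw [not_lt] at h5
    exact absurd h3 (not_lt.2 (one_le_pow₀ h5))
  have h5 : t ^ 4 * w.valuation F (algebraMap (𝓞 F) F W.c₄) < 1 := by
    calc t ^ 4 * w.valuation F (algebraMap (𝓞 F) F W.c₄) ≤ t ^ 4 * 1 :=
          mul_le_mul_right (w.valuation_le_one W.c₄) _
      _ = t ^ 4 := mul_one _
      _ < 1 := pow_lt_one₀ (zero_le') h4 (by norm_num)
  rw [← h2] at h5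
  exact lt_irrefl _ h5

theorem split_iff {W : WeierstrassCurve (𝓞 F)} (hW : IsModel E W) {w : HeightOneSpectrum (𝓞 F)}
    (hΔ : W.Δ ∈ w.asIdeal) (hc : W.c₄ ∉ w.asIdeal) : Split E w ↔ aff (red w W) + 1 = nm w := by
  constructor
  · rintro ⟨V, hV, hΔV, hcV, h⟩
    obtain ⟨C, hC, h1, h2⟩ := models hV hW w
    rw [val_one.1 hcV, val_one.1 hc, mul_one] at h2
    have h3 : (w.valuation F (C.u : F))⁻¹ = 1 :=
      (pow_eq_one_iff.1 h2.symm).resolve_right (by norm_num)
    rw [← aff_of_unit w hC (inv_eq_one.1 h3)]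
    exact h
  · intro h
    exact ⟨W, hW, hΔ, hc, h⟩

end

section
variable {K : Type} [Field K] [NumberField K] {E : WeierstrassCurve K}

theorem model_map {W : WeierstrassCurve (𝓞 K)} (hW : IsModel E W) (F : Type) [Field F]
    [NumberField F] [Algebra K F] :
    IsModel (E.map (algebraMap K F)) (W.map (algebraMap (𝓞 K) (𝓞 F))) := by
  obtain ⟨C, hC⟩ := hW
  refine ⟨C.map (algebraMap K F), ?_⟩
  rw [WeierstrassCurve.map_variableChange, hC, WeierstrassCurve.map_map,
    WeierstrassCurve.map_map]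
  congr 1

theorem mem_fib {F : Type} [Field F] [NumberField F] [Algebra K F]
    {v : HeightOneSpectrum (𝓞 K)} (w : Fib F v) (x : 𝓞 K) :
    algebraMap (𝓞 K) (𝓞 F) x ∈ w.1.asIdeal ↔ x ∈ v.asIdeal := by
  rw [fib_le w]
  rfl

/-- for a semistable curve the condition depends only on the residue degree -/
theorem split_deg (hE : Semistable E) (v : HeightOneSpectrum (𝓞 K)) :
    ∃ P : ℕ → Prop, ∀ (F : Type) [Field F] [NumberField F] [Algebra K F] (w : Fib F v),
      Split (E.map (algebraMap K F)) w.1 ↔ P (fdeg w) := by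
  obtain ⟨W, hW, hWv⟩ := hE v
  obtain ⟨g, hg⟩ := exists_count v W
  refine ⟨fun d => W.Δ ∈ v.asIdeal ∧ g d + 1 = nm v ^ d, fun F _ _ _ w => ?_⟩
  have hWF := model_map hW F
  by_cases hΔ : W.Δ ∈ v.asIdeal
  · have hc : W.c₄ ∉ v.asIdeal := hWv.resolve_left (fun h => h hΔ)
    rw [split_iff hWF (w := w.1) (by
        rw [WeierstrassCurve.map_Δ, mem_fib]
        exact hΔ) (by
        rw [WeierstrassCurve.map_c₄, mem_fib]
        exact hc), hg F w, nm_fib w]
    exact ⟨fun h => ⟨hΔ, h⟩, fun h => h.2⟩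
  · constructor
    · intro h
      exact absurd h (not_split hWF (by
        rw [WeierstrassCurve.map_Δ, mem_fib]
        exact hΔ))
    · rintro ⟨h, -⟩
      exact absurd h hΔ

variable {L : Type} [Field L] [NumberField L] [Algebra K L] [IsGalois K L]
variable {ι : Type} [Fintype ι] (F : ι → Type) [∀ i, Field (F i)] [∀ i, NumberField (F i)]
  [∀ i, Algebra K (F i)] (f : ∀ i, F i →ₐ[K] L) (e : ι → ℤ)

/-- the numbers of the primes with split multiplicative reduction -/
theorem split_rel (h : ∀ g : Gal(L/K), ∑ i, e i * fx (f i).fieldRange.fixingSubgroup g = 0)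
    (hE : E.IsElliptic) (hs : Semistable E) :
    ∑ i, e i * (Nat.card {w : HeightOneSpectrum (𝓞 (F i)) //
      Split (E.map (algebraMap K (F i))) w} : ℤ) = 0 := by
  classical
  obtain ⟨W, hW, hΔ0⟩ := exists_model E hE
  have hS : {v : HeightOneSpectrum (𝓞 K) | W.Δ ∈ v.asIdeal}.Finite := by
    have h1 := Ideal.finite_factors (I := Ideal.span {W.Δ}) (by
      rw [Ne, Ideal.zero_eq_bot, Ideal.span_singleton_eq_bot]
      exact hΔ0)
    refine h1.subset fun v hv => ?_
    rw [Set.mem_ofPred_eq, Ideal.dvd_span_singleton]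
    exact hv
  let S := {v : HeightOneSpectrum (𝓞 K) // W.Δ ∈ v.asIdeal}
  have hfin : Finite S := hS.to_subtype
  let _ : Fintype S := Fintype.ofFinite S
  have h1 : ∀ i, (Nat.card {w : HeightOneSpectrum (𝓞 (F i)) //
      Split (E.map (algebraMap K (F i))) w} : ℤ) =
      ∑ v : S, (Nat.card {w : Fib (F i) v.1 // Split (E.map (algebraMap K (F i))) w.1} : ℤ) := by
    intro i
    have hmem : ∀ w : HeightOneSpectrum (𝓞 (F i)), Split (E.map (algebraMap K (F i))) w →
        W.Δ ∈ (und (K := K) w).asIdeal := by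
      intro w hw
      by_contra h2
      exact not_split (model_map hW (F i)) (w := w) (by
        rw [WeierstrassCurve.map_Δ]
        exact h2) hw
    have e1 : {w : HeightOneSpectrum (𝓞 (F i)) // Split (E.map (algebraMap K (F i))) w} ≃
        (v : S) × {w : Fib (F i) v.1 // Split (E.map (algebraMap K (F i))) w.1} :=
      { toFun := fun w => ⟨⟨und w.1, hmem w.1 w.2⟩, ⟨⟨w.1, rfl⟩, w.2⟩⟩
        invFun := fun p => ⟨p.2.1.1, p.2.2⟩
        left_inv := fun _ => rfl
        right_inv := by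
          rintro ⟨⟨v, hv⟩, ⟨⟨w, hw⟩, hw'⟩⟩
          have hw2 : und w = v := hw
          subst hw2
          rfl }
    rw [Nat.card_congr e1, Nat.card_sigma]
    push_cast
    rfl
  simp_rw [h1, Finset.mul_sum]
  rw [Finset.sum_comm]
  refine Finset.sum_eq_zero fun v _ => ?_
  obtain ⟨P, hP⟩ := split_deg hs v.1
  rw [← prop_rel F f e h v.1 P]
  refine Finset.sum_congr rfl fun i _ => ?_
  congr 2
  exact Nat.card_congr (Equiv.subtypeEquivRight fun w => hP (F i) w)

end

end Pool.Agent.R386.HY
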